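import Mathlib

open Finset

namespace Pool.Agent.MP_0bef22_co

/-- the generalised progression with at most `M` steps in each direction `t ∈ T` -/
def gap {G : Type} [AddCommGroup G] [DecidableEq G] (T : Finset G) (M : ℕ) : Finset G :=
  (Finset.univ : Finset (T → Fin (M + 1))).image fun l => ∑ t : T, (l t : ℕ) • (t : G)

lemma gap_card {G : Type} [AddCommGroup G] [DecidableEq G] (T : Finset G) (M : ℕ) :
    (gap T M).card ≤ (M + 1) ^ T.card := by
  unfold gap
  refine le_trans Finset.card_image_le ?_
  rw [Finset.card_univ, Fintype.card_fun, Fintype.card_fin, Fintype.card_coe]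

lemma gap_zero_mem {G : Type} [AddCommGroup G] [DecidableEq G] (T : Finset G) (M : ℕ) :
    (0 : G) ∈ gap T M := by
  unfold gap
  rw [Finset.mem_image]
  exact ⟨fun _ => 0, Finset.mem_univ _, by simp⟩

lemma gap_subset {G : Type} [AddCommGroup G] [DecidableEq G] (T : Finset G) (M : ℕ) :
    gap T M ⊆ gap T (M + 1) := by
  intro x hx
  unfold gap at *
  rw [Finset.mem_image] at *
  obtain ⟨l, _, rfl⟩ := hx
  exact ⟨fun t => (l t).castSucc, Finset.mem_univ _, by simp⟩

lemma gap_add {G : Type} [AddCommGroup G] [DecidableEq G] (T : Finset G) (M : ℕ) {x t : G}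
    (hx : x ∈ gap T M) (ht : t ∈ T) : x + t ∈ gap T (M + 1) := by
  unfold gap at *
  rw [Finset.mem_image] at *
  obtain ⟨l, _, rfl⟩ := hx
  refine ⟨fun t' => if t' = ⟨t, ht⟩ then (l t').succ else (l t').castSucc, Finset.mem_univ _, ?_⟩
  have : ∀ t' : T, ((if t' = ⟨t, ht⟩ then (l t').succ else (l t').castSucc : Fin (M + 1 + 1)) : ℕ)
      • (t' : G) = (l t' : ℕ) • (t' : G) + if t' = ⟨t, ht⟩ then (t' : G) else 0 := by
    intro t'
    split_ifs with h
    · simp [add_smul]
    · simp
  simp only [this]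
  rw [Finset.sum_add_distrib]
  simp

/-- Almost invariant finite sets of bounded size. -/
theorem folner (d : ℕ) (η : ℝ) (hη : 0 < η) : ∃ B : ℕ, ∀ (G : Type) [AddCommGroup G]
    [DecidableEq G] (T : Finset G), T.card ≤ d → ∃ S : Finset G, S.Nonempty ∧ S.card ≤ B ∧
      ∀ t ∈ T, (1 - η) * S.card ≤ ((S.filter fun s => s + t ∈ S).card : ℝ) := by
  have hM : ∃ M₀ : ℕ, ((M₀ + 1 : ℕ) : ℝ) ^ d < (1 + η) ^ M₀ := by
    have h := tendsto_pow_const_div_const_pow_of_one_lt d (r := 1 + η) (by linarith)
    have h2 := h.eventually (gt_mem_nhds (show (0 : ℝ) < 1 / (1 + η) by positivity))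
    obtain ⟨N, hN⟩ := h2.exists_forall_of_atTop
    refine ⟨N, ?_⟩
    have h3 := hN (N + 1) (by omega)
    have hpos : (0 : ℝ) < (1 + η) ^ (N + 1) := by positivity
    rw [div_lt_div_iff₀ hpos (by linarith)] at h3
    rw [pow_succ (1 + η) N] at h3
    have h4 : (0 : ℝ) < 1 + η := by linarith
    have h5 : ((N + 1 : ℕ) : ℝ) ^ d * (1 + η) < (1 + η) ^ N * (1 + η) := by
      linarith
    exact lt_of_mul_lt_mul_right h5 h4.le
  obtain ⟨M₀, hM₀⟩ := hM
  refine ⟨(M₀ + 1) ^ d, fun G _ _ T hT => ?_⟩
  have hex : ∃ M < M₀, ((gap T (M + 1)).card : ℝ) ≤ (1 + η) * (gap T M).card := by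
    by_contra hcon
    push Not at hcon
    have hgrow : ∀ M ≤ M₀, (1 + η) ^ M ≤ ((gap T M).card : ℝ) := by
      intro M
      induction M with
      | zero =>
        intro _
        rw [pow_zero]
        have : 0 < (gap T 0).card := Finset.card_pos.2 ⟨0, gap_zero_mem T 0⟩
        exact_mod_cast this
      | succ M ih =>
        intro hM
        have h1 := ih (by omega)
        have h2 := hcon M (by omega)
        rw [pow_succ]
        have h4 : (0 : ℝ) < 1 + η := by linarith
        nlinarith
    have h1 := hgrow M₀ le_rfl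
    have h2 : ((gap T M₀).card : ℝ) ≤ ((M₀ + 1 : ℕ) : ℝ) ^ d := by
      have h3 : (gap T M₀).card ≤ (M₀ + 1) ^ d :=
        le_trans (gap_card T M₀) (Nat.pow_le_pow_right (by omega) hT)
      exact_mod_cast h3
    linarith
  obtain ⟨M, hM, hcard⟩ := hex
  refine ⟨gap T M, ⟨0, gap_zero_mem T M⟩, ?_, fun t ht => ?_⟩
  · refine le_trans (gap_card T M) (le_trans (Nat.pow_le_pow_right (by omega) hT) ?_)
    exact Nat.pow_le_pow_left (by omega) d
  · -- the elements that leave
    have h1 : ((gap T M).filter fun s => ¬ (s + t ∈ gap T M)).card ≤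
        (gap T (M + 1) \ gap T M).card := by
      refine Finset.card_le_card_of_injOn (fun s => s + t) ?_ ?_
      · intro s hs
        rw [Finset.mem_coe, Finset.mem_filter] at hs
        rw [Finset.mem_coe, Finset.mem_sdiff]
        exact ⟨gap_add T M hs.1 ht, hs.2⟩
      · intro a _ b _ hab
        exact add_right_cancel hab
    have h2 : (gap T (M + 1) \ gap T M).card = (gap T (M + 1)).card - (gap T M).card :=
      Finset.card_sdiff_of_subset (gap_subset T M)
    have h3 : (gap T M).card ≤ (gap T (M + 1)).card := Finset.card_le_card (gap_subset T M)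
    have h4 := Finset.card_filter_add_card_filter_not (s := gap T M) (fun s => s + t ∈ gap T M)
    have h5 : (gap T M).card ≤ ((gap T M).filter fun s => s + t ∈ gap T M).card +
        ((gap T (M + 1)).card - (gap T M).card) := by omega
    have h6 : ((gap T M).card : ℝ) ≤ (((gap T M).filter fun s => s + t ∈ gap T M).card : ℝ) +
        (((gap T (M + 1)).card : ℝ) - ((gap T M).card : ℝ)) := by
      have : ((gap T M).card : ℝ) ≤ ((((gap T M).filter fun s => s + t ∈ gap T M).card +
        ((gap T (M + 1)).card - (gap T M).card) : ℕ) : ℝ) := by exact_mod_cast h5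
      rw [Nat.cast_add, Nat.cast_sub h3] at this
      exact this
    linarith

end Pool.Agent.MP_0bef22_co
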