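import Mathlib

open Finset

namespace Pool.Agent.MP_0bef22_co

section
variable {q : ℕ} [NeZero q]

/-- the standard additive character of `ZMod q` -/
noncomputable def e (t : ZMod q) : ℂ := ZMod.stdAddChar t

lemma e_zero : e (0 : ZMod q) = 1 := AddChar.map_zero_eq_one _

lemma e_add (s t : ZMod q) : e (s + t) = e s * e t := AddChar.map_add_eq_mul _ _ _

lemma norm_e (t : ZMod q) : ‖e t‖ = 1 := by
  unfold e
  rw [ZMod.stdAddChar_apply]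
  exact Circle.norm_coe _

lemma e_neg (t : ZMod q) : e (-t) = (starRingEnd ℂ) (e t) := by
  have h1 : e (-t) * e t = 1 := by rw [← e_add, neg_add_cancel, e_zero]
  have h2 : (starRingEnd ℂ) (e t) * e t = 1 := by
    rw [mul_comm, Complex.mul_conj, Complex.normSq_eq_norm_sq, norm_e]; simp
  have h3 : e t ≠ 0 := by
    intro h
    have := norm_e t
    rw [h, norm_zero] at this
    exact zero_ne_one this
  exact mul_right_cancel₀ h3 (h1.trans h2.symm)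

lemma sum_e (t : ZMod q) : ∑ x : ZMod q, e (t * x) = if t = 0 then (q : ℂ) else 0 := by
  have h := AddChar.sum_mulShift t (ZMod.isPrimitive_stdAddChar q)
  rw [ZMod.card] at h
  have h2 : ∑ x : ZMod q, e (t * x) = ∑ x : ZMod q, ZMod.stdAddChar (x * t) :=
    Finset.sum_congr rfl fun x _ => by unfold e; rw [mul_comm]
  rw [h2, h]
  split_ifs <;> simp

/-- a trigonometric sum -/
noncomputable def trig {ι : Type} (J : Finset ι) (A : ι → ℂ) (ρ : ι → ZMod q) (x : ZMod q) : ℂ :=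
  ∑ j ∈ J, A j * e (ρ j * x)

/-- the trilinear form counting solutions -/
noncomputable def TT (α β : ZMod q) (f g h : ZMod q → ℂ) : ℂ :=
  ∑ x, ∑ y, f x * g y * h (α * x + β * y)

lemma TT_trig {ι : Type} (α β : ZMod q) (J₁ J₂ J₃ : Finset ι) (A₁ A₂ A₃ : ι → ℂ)
    (ρ₁ ρ₂ ρ₃ : ι → ZMod q) :
    TT α β (trig J₁ A₁ ρ₁) (trig J₂ A₂ ρ₂) (trig J₃ A₃ ρ₃) =
      (q : ℂ) ^ 2 * ∑ i ∈ J₁, ∑ j ∈ J₂, ∑ k ∈ J₃,
        if ρ₁ i + α * ρ₃ k = 0 ∧ ρ₂ j + β * ρ₃ k = 0 then A₁ i * A₂ j * A₃ k else 0 := by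
  have h1 : ∀ x y : ZMod q, trig J₁ A₁ ρ₁ x * trig J₂ A₂ ρ₂ y * trig J₃ A₃ ρ₃ (α * x + β * y) =
      ∑ i ∈ J₁, ∑ j ∈ J₂, ∑ k ∈ J₃, (A₁ i * A₂ j * A₃ k) *
        (e ((ρ₁ i + α * ρ₃ k) * x) * e ((ρ₂ j + β * ρ₃ k) * y)) := by
    intro x y
    unfold trig
    rw [Finset.sum_mul_sum, Finset.sum_mul]
    refine Finset.sum_congr rfl fun i _ => ?_
    rw [Finset.sum_mul]
    refine Finset.sum_congr rfl fun j _ => ?_
    rw [Finset.mul_sum]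
    refine Finset.sum_congr rfl fun k _ => ?_
    rw [show ρ₃ k * (α * x + β * y) = α * ρ₃ k * x + β * ρ₃ k * y by ring, e_add,
      add_mul, add_mul, e_add, e_add]
    ring
  unfold TT
  simp only [h1]
  have h2 : ∀ x : ZMod q, ∑ y : ZMod q, ∑ i ∈ J₁, ∑ j ∈ J₂, ∑ k ∈ J₃, (A₁ i * A₂ j * A₃ k) *
        (e ((ρ₁ i + α * ρ₃ k) * x) * e ((ρ₂ j + β * ρ₃ k) * y)) =
      ∑ i ∈ J₁, ∑ j ∈ J₂, ∑ k ∈ J₃, (A₁ i * A₂ j * A₃ k) *
        (e ((ρ₁ i + α * ρ₃ k) * x) * ∑ y : ZMod q, e ((ρ₂ j + β * ρ₃ k) * y)) := by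
    intro x
    rw [Finset.sum_comm]
    refine Finset.sum_congr rfl fun i _ => ?_
    rw [Finset.sum_comm]
    refine Finset.sum_congr rfl fun j _ => ?_
    rw [Finset.sum_comm]
    refine Finset.sum_congr rfl fun k _ => ?_
    rw [Finset.mul_sum, Finset.mul_sum]
  simp only [h2]
  rw [Finset.sum_comm, Finset.mul_sum]
  refine Finset.sum_congr rfl fun i _ => ?_
  rw [Finset.sum_comm, Finset.mul_sum]
  refine Finset.sum_congr rfl fun j _ => ?_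
  rw [Finset.sum_comm, Finset.mul_sum]
  refine Finset.sum_congr rfl fun k _ => ?_
  rw [← Finset.mul_sum, ← Finset.sum_mul, sum_e, sum_e]
  by_cases c1 : ρ₁ i + α * ρ₃ k = 0 <;> by_cases c2 : ρ₂ j + β * ρ₃ k = 0
  · simp only [c1, c2, and_self, if_true]; ring
  · simp [c1, c2]
  · simp [c1, c2]
  · simp [c1, c2]

/-- Fourier coefficients -/
noncomputable def hat (f : ZMod q → ℂ) (t : ZMod q) : ℂ :=
  (q : ℂ)⁻¹ * ∑ u, f u * e (-(t * u))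

lemma q_ne : (q : ℂ) ≠ 0 := by
  exact_mod_cast NeZero.ne q

lemma inversion (f : ZMod q → ℂ) (x : ZMod q) : trig Finset.univ (hat f) id x = f x := by
  unfold trig hat
  simp only [id]
  have h1 : ∀ t : ZMod q, (q : ℂ)⁻¹ * (∑ u, f u * e (-(t * u))) * e (t * x) =
      ∑ u, (q : ℂ)⁻¹ * f u * e ((x - u) * t) := by
    intro t
    rw [mul_assoc, Finset.sum_mul, Finset.mul_sum]
    refine Finset.sum_congr rfl fun u _ => ?_
    rw [show (x - u) * t = -(t * u) + t * x by ring, e_add]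
    ring
  simp only [h1]
  rw [Finset.sum_comm]
  simp only [← Finset.mul_sum, sum_e]
  rw [Finset.sum_eq_single x]
  · rw [sub_self, if_pos rfl]
    field_simp [q_ne (q := q)]
  · intro b _ hb
    rw [if_neg (sub_ne_zero.2 (Ne.symm hb)), mul_zero]
  · simp

/-- Parseval for trigonometric sums with distinct frequencies -/
lemma sum_norm_sq_trig (S : Finset (ZMod q)) (w : ZMod q → ℂ) :
    ∑ u : ZMod q, ‖∑ s ∈ S, w s * e (s * u)‖ ^ 2 = q * ∑ s ∈ S, ‖w s‖ ^ 2 := by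
  have h : ((∑ u : ZMod q, ‖∑ s ∈ S, w s * e (s * u)‖ ^ 2 : ℝ) : ℂ) =
      ((q * ∑ s ∈ S, ‖w s‖ ^ 2 : ℝ) : ℂ) := by
    push_cast
    have h1 : ∀ u : ZMod q, ((‖∑ s ∈ S, w s * e (s * u)‖ : ℝ) : ℂ) ^ 2 =
        ∑ s ∈ S, ∑ s' ∈ S, w s * (starRingEnd ℂ) (w s') * e ((s - s') * u) := by
      intro u
      rw [← Complex.mul_conj', map_sum, Finset.sum_mul_sum]
      refine Finset.sum_congr rfl fun s _ => Finset.sum_congr rfl fun s' _ => ?_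
      rw [map_mul, ← e_neg, show (s - s') * u = s * u + -(s' * u) by ring, e_add]
      ring
    simp only [h1]
    rw [Finset.sum_comm, Finset.mul_sum]
    refine Finset.sum_congr rfl fun s hs => ?_
    rw [Finset.sum_comm]
    simp only [← Finset.mul_sum, sum_e]
    rw [Finset.sum_eq_single s]
    · rw [sub_self, if_pos rfl, Complex.mul_conj']
      ring
    · intro b _ hb
      rw [if_neg (sub_ne_zero.2 (Ne.symm hb)), mul_zero]
    · intro h; exact absurd hs h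
  exact_mod_cast h

lemma parseval (f : ZMod q → ℂ) : ∑ u : ZMod q, ‖f u‖ ^ 2 = q * ∑ t, ‖hat f t‖ ^ 2 := by
  rw [← sum_norm_sq_trig]
  refine Finset.sum_congr rfl fun u _ => ?_
  rw [← inversion f u]
  rfl

lemma parseval_le (f : ZMod q → ℂ) (hf : ∀ u, ‖f u‖ ≤ 1) : ∑ t, ‖hat f t‖ ^ 2 ≤ 1 := by
  have h := parseval f
  have h1 : ∑ u : ZMod q, ‖f u‖ ^ 2 ≤ ∑ u : ZMod q, (1 : ℝ) := by
    refine Finset.sum_le_sum fun u _ => ?_
    have := hf u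
    have := norm_nonneg (f u)
    nlinarith
  rw [Finset.sum_const, Finset.card_univ, ZMod.card, nsmul_eq_mul, mul_one] at h1
  have hq : (0 : ℝ) < q := by exact_mod_cast Nat.pos_of_ne_zero (NeZero.ne q)
  rw [h] at h1
  by_contra hcon
  push Not at hcon
  nlinarith

lemma norm_hat_le (f : ZMod q → ℂ) (hf : ∀ u, ‖f u‖ ≤ 1) (t : ZMod q) : ‖hat f t‖ ≤ 1 := by
  have h := parseval_le f hf
  have h1 : ‖hat f t‖ ^ 2 ≤ ∑ t, ‖hat f t‖ ^ 2 :=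
    Finset.single_le_sum (f := fun t => ‖hat f t‖ ^ 2) (fun _ _ => by positivity)
      (Finset.mem_univ t)
  have h2 : ‖hat f t‖ ^ 2 ≤ 1 := h1.trans h
  have := norm_nonneg (hat f t)
  nlinarith

lemma norm_sum_mul_le {ι : Type} (s : Finset ι) (X Y Z : ι → ℂ) (A : ℝ) (hA : 0 ≤ A)
    (hX : ∀ r ∈ s, ‖X r‖ ≤ A) (hY : ∑ r ∈ s, ‖Y r‖ ^ 2 ≤ 1) (hZ : ∑ r ∈ s, ‖Z r‖ ^ 2 ≤ 1) :
    ‖∑ r ∈ s, X r * Y r * Z r‖ ≤ A := by
  calc ‖∑ r ∈ s, X r * Y r * Z r‖ ≤ ∑ r ∈ s, ‖X r * Y r * Z r‖ := norm_sum_le _ _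
    _ ≤ ∑ r ∈ s, A * ((‖Y r‖ ^ 2 + ‖Z r‖ ^ 2) / 2) := by
        refine Finset.sum_le_sum fun r hr => ?_
        rw [norm_mul, norm_mul, mul_assoc]
        have h1 := hX r hr
        have h2 := norm_nonneg (X r)
        have h3 : ‖Y r‖ * ‖Z r‖ ≤ (‖Y r‖ ^ 2 + ‖Z r‖ ^ 2) / 2 := by
          nlinarith [sq_nonneg (‖Y r‖ - ‖Z r‖)]
        have h4 : 0 ≤ ‖Y r‖ * ‖Z r‖ := by positivity
        calc ‖X r‖ * (‖Y r‖ * ‖Z r‖) ≤ A * (‖Y r‖ * ‖Z r‖) := by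
              exact mul_le_mul_of_nonneg_right h1 h4
          _ ≤ A * ((‖Y r‖ ^ 2 + ‖Z r‖ ^ 2) / 2) := mul_le_mul_of_nonneg_left h3 hA
    _ = A * ((∑ r ∈ s, ‖Y r‖ ^ 2 + ∑ r ∈ s, ‖Z r‖ ^ 2) / 2) := by
        rw [← Finset.mul_sum, ← Finset.sum_div, Finset.sum_add_distrib]
    _ ≤ A * 1 := by
        apply mul_le_mul_of_nonneg_left _ hA
        linarith
    _ = A := mul_one A

lemma TT_fourier (α β : ZMod q) (f g h : ZMod q → ℂ) :
    TT α β f g h = (q : ℂ) ^ 2 * ∑ r, hat f (-(α * r)) * hat g (-(β * r)) * hat h r := by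
  have hf : f = trig Finset.univ (hat f) id := funext fun x => (inversion f x).symm
  have hg : g = trig Finset.univ (hat g) id := funext fun x => (inversion g x).symm
  have hh : h = trig Finset.univ (hat h) id := funext fun x => (inversion h x).symm
  conv_lhs => rw [hf, hg, hh]
  rw [TT_trig]
  congr 1
  simp only [id]
  rw [Finset.sum_congr rfl fun i _ => Finset.sum_comm, Finset.sum_comm]
  refine Finset.sum_congr rfl fun k _ => ?_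
  rw [Finset.sum_eq_single (-(α * k))]
  · rw [Finset.sum_eq_single (-(β * k))]
    · simp
    · intro b _ hb
      rw [if_neg]
      rintro ⟨_, h2⟩
      exact hb (eq_neg_of_add_eq_zero_left h2)
    · simp
  · intro b _ hb
    refine Finset.sum_eq_zero fun c _ => ?_
    rw [if_neg]
    rintro ⟨h1, _⟩
    exact hb (eq_neg_of_add_eq_zero_left h1)
  · simp

lemma sum_unit_mul (α : ZMod q) (hα : IsUnit α) (F : ZMod q → ℝ) :
    ∑ r, F (-(α * r)) = ∑ r, F r := by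
  obtain ⟨u, rfl⟩ := hα
  refine Fintype.sum_bijective (fun r => -((u : ZMod q) * r)) ?_ _ _ fun x => rfl
  constructor
  · intro x y hxy
    exact u.isUnit.mul_left_cancel (neg_injective hxy)
  · intro y
    refine ⟨-((u⁻¹ : (ZMod q)ˣ) * y), ?_⟩
    simp

/-- bounds for the trilinear form by the Fourier supremum norm of one argument -/
lemma TT_bound (α β : ZMod q) (hα : IsUnit α) (hβ : IsUnit β) (f g h : ZMod q → ℂ)
    (hf : ∀ u, ‖f u‖ ≤ 1) (hg : ∀ u, ‖g u‖ ≤ 1) (A : ℝ) (hA : 0 ≤ A)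
    (hh : ∀ t, ‖hat h t‖ ≤ A) : ‖TT α β f g h‖ ≤ (q : ℝ) ^ 2 * A := by
  rw [TT_fourier, norm_mul, norm_pow, Complex.norm_natCast]
  refine mul_le_mul_of_nonneg_left ?_ (by positivity)
  have h1 : ∑ r, hat f (-(α * r)) * hat g (-(β * r)) * hat h r =
      ∑ r, hat h r * hat f (-(α * r)) * hat g (-(β * r)) :=
    Finset.sum_congr rfl fun r _ => by ring
  rw [h1]
  refine norm_sum_mul_le _ _ _ _ A hA (fun r _ => hh r) ?_ ?_
  · rw [sum_unit_mul α hα (fun r => ‖hat f r‖ ^ 2)]; exact parseval_le f hf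
  · rw [sum_unit_mul β hβ (fun r => ‖hat g r‖ ^ 2)]; exact parseval_le g hg

lemma TT_bound₁ (α β : ZMod q) (hβ : IsUnit β) (f g h : ZMod q → ℂ)
    (hg : ∀ u, ‖g u‖ ≤ 1) (hh : ∀ u, ‖h u‖ ≤ 1) (A : ℝ) (hA : 0 ≤ A)
    (hf : ∀ t, ‖hat f t‖ ≤ A) : ‖TT α β f g h‖ ≤ (q : ℝ) ^ 2 * A := by
  rw [TT_fourier, norm_mul, norm_pow, Complex.norm_natCast]
  refine mul_le_mul_of_nonneg_left ?_ (by positivity)
  refine norm_sum_mul_le _ _ _ _ A hA (fun r _ => hf _) ?_ (parseval_le h hh)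
  rw [sum_unit_mul β hβ (fun r => ‖hat g r‖ ^ 2)]; exact parseval_le g hg

lemma TT_bound₂ (α β : ZMod q) (hα : IsUnit α) (f g h : ZMod q → ℂ)
    (hf : ∀ u, ‖f u‖ ≤ 1) (hh : ∀ u, ‖h u‖ ≤ 1) (A : ℝ) (hA : 0 ≤ A)
    (hg : ∀ t, ‖hat g t‖ ≤ A) : ‖TT α β f g h‖ ≤ (q : ℝ) ^ 2 * A := by
  rw [TT_fourier, norm_mul, norm_pow, Complex.norm_natCast]
  refine mul_le_mul_of_nonneg_left ?_ (by positivity)
  have h1 : ∑ r, hat f (-(α * r)) * hat g (-(β * r)) * hat h r =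
      ∑ r, hat g (-(β * r)) * hat f (-(α * r)) * hat h r :=
    Finset.sum_congr rfl fun r _ => by ring
  rw [h1]
  refine norm_sum_mul_le _ _ _ _ A hA (fun r _ => hg _) ?_ (parseval_le h hh)
  rw [sum_unit_mul α hα (fun r => ‖hat f r‖ ^ 2)]; exact parseval_le f hf

lemma hat_sub (f g : ZMod q → ℂ) (t : ZMod q) : hat (fun u => f u - g u) t = hat f t - hat g t := by
  unfold hat
  rw [← mul_sub, ← Finset.sum_sub_distrib]
  congr 1
  refine Finset.sum_congr rfl fun u _ => ?_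
  ring

/-- replacing the three functions by functions with close Fourier coefficients -/
lemma TT_close (α β : ZMod q) (hα : IsUnit α) (hβ : IsUnit β) (f₁ f₂ f₃ g₁ g₂ g₃ : ZMod q → ℂ)
    (hf₁ : ∀ u, ‖f₁ u‖ ≤ 1) (hf₂ : ∀ u, ‖f₂ u‖ ≤ 1) (hf₃ : ∀ u, ‖f₃ u‖ ≤ 1)
    (hg₁ : ∀ u, ‖g₁ u‖ ≤ 1) (hg₂ : ∀ u, ‖g₂ u‖ ≤ 1)
    (A : ℝ) (hA : 0 ≤ A)
    (h₁ : ∀ t, ‖hat f₁ t - hat g₁ t‖ ≤ A) (h₂ : ∀ t, ‖hat f₂ t - hat g₂ t‖ ≤ A)
    (h₃ : ∀ t, ‖hat f₃ t - hat g₃ t‖ ≤ A) :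
    ‖TT α β f₁ f₂ f₃ - TT α β g₁ g₂ g₃‖ ≤ (q : ℝ) ^ 2 * (3 * A) := by
  have hd : TT α β f₁ f₂ f₃ - TT α β g₁ g₂ g₃ = TT α β (fun u => f₁ u - g₁ u) f₂ f₃ +
      TT α β g₁ (fun u => f₂ u - g₂ u) f₃ + TT α β g₁ g₂ (fun u => f₃ u - g₃ u) := by
    unfold TT
    rw [← Finset.sum_sub_distrib, ← Finset.sum_add_distrib, ← Finset.sum_add_distrib]
    refine Finset.sum_congr rfl fun x _ => ?_
    rw [← Finset.sum_sub_distrib, ← Finset.sum_add_distrib, ← Finset.sum_add_distrib]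
    refine Finset.sum_congr rfl fun y _ => ?_
    ring
  rw [hd]
  have b1 := TT_bound₁ α β hβ (fun u => f₁ u - g₁ u) f₂ f₃ hf₂ hf₃ A hA
    (fun t => by rw [hat_sub]; exact h₁ t)
  have b2 := TT_bound₂ α β hα g₁ (fun u => f₂ u - g₂ u) f₃ hg₁ hf₃ A hA
    (fun t => by rw [hat_sub]; exact h₂ t)
  have b3 := TT_bound α β hα hβ g₁ g₂ (fun u => f₃ u - g₃ u) hg₁ hg₂ A hA
    (fun t => by rw [hat_sub]; exact h₃ t)
  calc _ ≤ ‖TT α β (fun u => f₁ u - g₁ u) f₂ f₃ + TT α β g₁ (fun u => f₂ u - g₂ u) f₃‖ +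
      ‖TT α β g₁ g₂ (fun u => f₃ u - g₃ u)‖ := norm_add_le _ _
    _ ≤ ‖TT α β (fun u => f₁ u - g₁ u) f₂ f₃‖ + ‖TT α β g₁ (fun u => f₂ u - g₂ u) f₃‖ +
      ‖TT α β g₁ g₂ (fun u => f₃ u - g₃ u)‖ := by
        have := norm_add_le (TT α β (fun u => f₁ u - g₁ u) f₂ f₃)
          (TT α β g₁ (fun u => f₂ u - g₂ u) f₃)
        linarith
    _ ≤ _ := by linarith

end

end Pool.Agent.MP_0bef22_co
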