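import Mathlib
import Pool.Agent.MP_0bef22_co.Fourier

open Finset

namespace Pool.Agent.MP_0bef22_co

section
variable {p P : ℕ} [NeZero p] [NeZero P]

/-- the transfer kernel -/
noncomputable def W (φ : ZMod p → ZMod P) (S : Finset (ZMod p)) (x : ZMod P) (u : ZMod p) : ℝ :=
  ‖∑ s ∈ S, e (-(φ s * x)) * e (s * u)‖ ^ 2 / (p * S.card)

lemma W_nonneg (φ : ZMod p → ZMod P) (S : Finset (ZMod p)) (x : ZMod P) (u : ZMod p) :
    0 ≤ W φ S x u := by
  unfold W; positivity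

lemma p_pos : (0 : ℝ) < p := by exact_mod_cast Nat.pos_of_ne_zero (NeZero.ne p)

lemma W_sum (φ : ZMod p → ZMod P) (S : Finset (ZMod p)) (hS : S.Nonempty) (x : ZMod P) :
    ∑ u, W φ S x u = 1 := by
  unfold W
  rw [← Finset.sum_div, sum_norm_sq_trig]
  have h1 : ∑ s ∈ S, ‖e (-(φ s * x))‖ ^ 2 = S.card := by
    simp [norm_e]
  rw [h1]
  have h2 : (0 : ℝ) < S.card := by exact_mod_cast hS.card_pos
  have h3 := p_pos (p := p)
  field_simp

/-- transferred function -/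
noncomputable def Fop (φ : ZMod p → ZMod P) (S : Finset (ZMod p)) (f : ZMod p → ℝ)
    (x : ZMod P) : ℝ := ∑ u, W φ S x u * f u

lemma Fop_nonneg (φ : ZMod p → ZMod P) (S : Finset (ZMod p)) (f : ZMod p → ℝ)
    (hf : ∀ u, 0 ≤ f u) (x : ZMod P) : 0 ≤ Fop φ S f x :=
  Finset.sum_nonneg fun u _ => mul_nonneg (W_nonneg φ S x u) (hf u)

lemma Fop_le_one (φ : ZMod p → ZMod P) (S : Finset (ZMod p)) (hS : S.Nonempty) (f : ZMod p → ℝ)
    (hf : ∀ u, f u ≤ 1) (x : ZMod P) : Fop φ S f x ≤ 1 := by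
  rw [← W_sum φ S hS x]
  unfold Fop
  refine Finset.sum_le_sum fun u _ => ?_
  have := W_nonneg φ S x u
  have := hf u
  nlinarith

lemma Fop_trig (φ : ZMod p → ZMod P) (S : Finset (ZMod p)) (f : ZMod p → ℝ) (x : ZMod P) :
    ((Fop φ S f x : ℝ) : ℂ) = trig (S ×ˢ S)
      (fun j => hat (fun u => (f u : ℂ)) (j.2 - j.1) / S.card) (fun j => φ j.2 - φ j.1) x := by
  unfold Fop W trig
  push_cast
  have h1 : ∀ u : ZMod p, ((‖∑ s ∈ S, e (-(φ s * x)) * e (s * u)‖ : ℝ) : ℂ) ^ 2 =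
      ∑ j ∈ S ×ˢ S, e ((φ j.2 - φ j.1) * x) * e (-((j.2 - j.1) * u)) := by
    intro u
    rw [← Complex.mul_conj', map_sum, Finset.sum_mul_sum, Finset.sum_product]
    refine Finset.sum_congr rfl fun s _ => Finset.sum_congr rfl fun s' _ => ?_
    rw [map_mul, ← e_neg, ← e_neg]
    simp only
    rw [show (φ s' - φ s) * x = -(φ s * x) + - -(φ s' * x) by ring, e_add,
      show -((s' - s) * u) = s * u + -(s' * u) by ring, e_add]
    ring
  simp only [h1]
  have h2 : ∀ u : ZMod p, (∑ j ∈ S ×ˢ S, e ((φ j.2 - φ j.1) * x) * e (-((j.2 - j.1) * u))) /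
      ((p : ℂ) * (S.card : ℂ)) * (f u : ℂ) = ∑ j ∈ S ×ˢ S,
      (p : ℂ)⁻¹ * ((f u : ℂ) * e (-((j.2 - j.1) * u))) / (S.card : ℂ) * e ((φ j.2 - φ j.1) * x) := by
    intro u
    rw [Finset.sum_div, Finset.sum_mul]
    refine Finset.sum_congr rfl fun j _ => ?_
    rw [div_eq_mul_inv, mul_inv]
    ring
  simp only [h2]
  rw [Finset.sum_comm]
  refine Finset.sum_congr rfl fun j _ => ?_
  unfold hat
  rw [← Finset.sum_mul, ← Finset.sum_div, ← Finset.mul_sum]

/-- localisation of the kernel -/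
lemma W_local (φ : ZMod p → ZMod P) (S : Finset (ZMod p)) (hS : S.Nonempty) (η : ℝ)
    (h1 : ∀ s ∈ S, s + 1 ∈ S → φ (s + 1) = φ s + 1)
    (h2 : (1 - η) * S.card ≤ ((S.filter fun s => s + 1 ∈ S).card : ℝ)) (x : ZMod P) :
    ∑ u : ZMod p, W φ S x u * ‖1 - e u * e (-x)‖ ^ 2 ≤ 2 * η := by
  classical
  let S1 : Finset (ZMod p) := S.image (· + 1)
  let w : ZMod p → ℂ := fun s =>
    (if s ∈ S then e (-(φ s * x)) else 0) - (if s ∈ S1 then e (-((φ (s - 1) + 1) * x)) else 0)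
  have key : ∀ u : ZMod p, (1 - e u * e (-x)) * ∑ s ∈ S, e (-(φ s * x)) * e (s * u) =
      ∑ s ∈ S ∪ S1, w s * e (s * u) := by
    intro u
    have a1 : ∑ s ∈ S ∪ S1, w s * e (s * u) =
        ∑ s ∈ S ∪ S1, (if s ∈ S then e (-(φ s * x)) * e (s * u) else 0) -
        ∑ s ∈ S ∪ S1, (if s ∈ S1 then e (-((φ (s - 1) + 1) * x)) * e (s * u) else 0) := by
      rw [← Finset.sum_sub_distrib]
      refine Finset.sum_congr rfl fun s _ => ?_
      simp only [w]
      split_ifs <;> ring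
    have a2 : ∑ s ∈ S ∪ S1, (if s ∈ S then e (-(φ s * x)) * e (s * u) else 0) =
        ∑ s ∈ S, e (-(φ s * x)) * e (s * u) := by
      rw [← Finset.sum_filter]
      congr 1
      ext s
      simp only [mem_filter, mem_union]
      tauto
    have a3 : ∑ s ∈ S ∪ S1, (if s ∈ S1 then e (-((φ (s - 1) + 1) * x)) * e (s * u) else 0) =
        ∑ s ∈ S1, e (-((φ (s - 1) + 1) * x)) * e (s * u) := by
      rw [← Finset.sum_filter]
      congr 1
      ext s
      simp only [mem_filter, mem_union]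
      tauto
    have a4 : ∑ s ∈ S1, e (-((φ (s - 1) + 1) * x)) * e (s * u) =
        ∑ s ∈ S, e u * e (-x) * (e (-(φ s * x)) * e (s * u)) := by
      rw [Finset.sum_image (fun a _ b _ h => add_right_cancel h)]
      refine Finset.sum_congr rfl fun s _ => ?_
      rw [add_sub_cancel_right, show -((φ s + 1) * x) = -(φ s * x) + -x by ring, e_add,
        add_mul, one_mul, e_add]
      ring
    rw [a1, a2, a3, a4, ← Finset.mul_sum]
    ring
  have hp := p_pos (p := p)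
  have hc : (0 : ℝ) < S.card := by exact_mod_cast hS.card_pos
  have e1 : ∀ u : ZMod p, W φ S x u * ‖1 - e u * e (-x)‖ ^ 2 =
      ‖∑ s ∈ S ∪ S1, w s * e (s * u)‖ ^ 2 / (p * S.card) := by
    intro u
    rw [← key u, norm_mul, mul_pow]
    unfold W
    ring
  simp only [e1]
  rw [← Finset.sum_div, sum_norm_sq_trig, div_le_iff₀ (by positivity)]
  -- bound for the coefficients
  have hw : ∀ s ∈ S ∪ S1, ‖w s‖ ^ 2 ≤ (if s ∈ S ∧ s ∉ S1 then 1 else 0) +
      (if s ∈ S1 ∧ s ∉ S then (1 : ℝ) else 0) := by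
    intro s _
    simp only [w]
    by_cases c1 : s ∈ S <;> by_cases c2 : s ∈ S1
    · obtain ⟨s', hs', rfl⟩ := Finset.mem_image.1 c2
      simp only [c1, c2, if_true]
      rw [add_sub_cancel_right, h1 s' hs' c1, sub_self]
      simp
    · simp [c1, c2, norm_e]
    · simp [c1, c2, norm_e]
    · simp [c1, c2]
  have hsum : ∑ s ∈ S ∪ S1, ‖w s‖ ^ 2 ≤ ((S \ S1).card : ℝ) + ((S1 \ S).card : ℝ) := by
    refine le_trans (Finset.sum_le_sum hw) ?_
    rw [Finset.sum_add_distrib, ← Finset.sum_filter, ← Finset.sum_filter]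
    rw [Finset.sum_const, Finset.sum_const, nsmul_eq_mul, nsmul_eq_mul, mul_one, mul_one]
    have b1 : ((S ∪ S1).filter fun s => s ∈ S ∧ s ∉ S1) = S \ S1 := by
      ext s; simp only [mem_filter, mem_union, mem_sdiff]; tauto
    have b2 : ((S ∪ S1).filter fun s => s ∈ S1 ∧ s ∉ S) = S1 \ S := by
      ext s; simp only [mem_filter, mem_union, mem_sdiff]; tauto
    rw [b1, b2]
  -- cardinalities
  have hS1 : S1.card = S.card := Finset.card_image_of_injective _ (add_left_injective 1)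
  have hint : (S.filter fun s => s + 1 ∈ S).card ≤ (S ∩ S1).card := by
    refine Finset.card_le_card_of_injOn (fun s => s + 1) ?_ ?_
    · intro s hs
      rw [Finset.mem_coe, Finset.mem_filter] at hs
      rw [Finset.mem_coe, Finset.mem_inter]
      exact ⟨hs.2, Finset.mem_image_of_mem _ hs.1⟩
    · intro a _ b _ hab
      exact add_right_cancel hab
  have hc1 : ((S \ S1).card : ℝ) = S.card - (S ∩ S1).card := by
    have := Finset.card_sdiff_add_card_inter S S1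
    have h3 : ((S \ S1).card : ℝ) + (S ∩ S1).card = S.card := by exact_mod_cast this
    linarith
  have hc2 : ((S1 \ S).card : ℝ) = S.card - (S ∩ S1).card := by
    have := Finset.card_sdiff_add_card_inter S1 S
    rw [Finset.inter_comm, hS1] at this
    have h3 : ((S1 \ S).card : ℝ) + (S ∩ S1).card = S.card := by exact_mod_cast this
    linarith
  have hint' : ((S.filter fun s => s + 1 ∈ S).card : ℝ) ≤ ((S ∩ S1).card : ℝ) := by
    exact_mod_cast hint
  have hfin : ∑ s ∈ S ∪ S1, ‖w s‖ ^ 2 ≤ 2 * η * S.card := by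
    rw [hc1, hc2] at hsum
    nlinarith
  calc (p : ℝ) * ∑ s ∈ S ∪ S1, ‖w s‖ ^ 2 ≤ p * (2 * η * S.card) :=
        mul_le_mul_of_nonneg_left hfin hp.le
    _ = 2 * η * (p * S.card) := by ring

end

section
variable {q : ℕ} [NeZero q]

lemma hat_trig {ι : Type} (J : Finset ι) (A : ι → ℂ) (ρ : ι → ZMod q) (t : ZMod q) :
    hat (trig J A ρ) t = ∑ j ∈ J, if ρ j = t then A j else 0 := by
  unfold hat trig
  simp only [Finset.sum_mul]
  rw [Finset.sum_comm, Finset.mul_sum]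
  refine Finset.sum_congr rfl fun j _ => ?_
  have h1 : ∀ u : ZMod q, A j * e (ρ j * u) * e (-(t * u)) = A j * e ((ρ j - t) * u) := by
    intro u
    rw [show (ρ j - t) * u = ρ j * u + -(t * u) by ring, e_add]
    ring
  simp only [h1]
  rw [← Finset.mul_sum, sum_e]
  by_cases h : ρ j = t
  · rw [if_pos (sub_eq_zero.2 h), if_pos h]
    field_simp [q_ne (q := q)]
  · rw [if_neg (fun h' => h (sub_eq_zero.1 h')), if_neg h]
    simp

lemma hat_Fop_id (S : Finset (ZMod q)) (f : ZMod q → ℝ) (t : ZMod q) :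
    hat (fun x => ((Fop (p := q) (P := q) id S f x : ℝ) : ℂ)) t =
      ((((S.filter fun s => s + t ∈ S).card : ℝ) / S.card : ℝ) : ℂ) *
        hat (fun u => (f u : ℂ)) t := by
  have h0 : (fun x => ((Fop (p := q) (P := q) id S f x : ℝ) : ℂ)) = trig (S ×ˢ S)
      (fun j => hat (fun u => (f u : ℂ)) (j.2 - j.1) / S.card) (fun j => id j.2 - id j.1) := by
    funext x
    exact Fop_trig id S f x
  rw [h0, hat_trig]
  simp only [id]
  rw [← Finset.sum_filter]
  have h1 : ∀ j ∈ (S ×ˢ S).filter (fun j => j.2 - j.1 = t),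
      hat (fun u => (f u : ℂ)) (j.2 - j.1) / (S.card : ℂ) =
        hat (fun u => (f u : ℂ)) t / (S.card : ℂ) := by
    intro j hj
    rw [(Finset.mem_filter.1 hj).2]
  rw [Finset.sum_congr rfl h1, Finset.sum_const, nsmul_eq_mul]
  have h2 : ((S ×ˢ S).filter fun j => j.2 - j.1 = t).card =
      (S.filter fun s => s + t ∈ S).card := by
    refine Finset.card_bij (fun j _ => j.1) ?_ ?_ ?_
    · intro j hj
      rw [Finset.mem_filter, Finset.mem_product] at hj
      rw [Finset.mem_filter]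
      refine ⟨hj.1.1, ?_⟩
      rw [← hj.2, add_sub_cancel]
      exact hj.1.2
    · intro a ha b hb hab
      rw [Finset.mem_filter] at ha hb
      have h3 := ha.2
      rw [← hb.2, hab] at h3
      exact Prod.ext hab (sub_left_injective h3)
    · intro s hs
      rw [Finset.mem_filter] at hs
      refine ⟨(s, s + t), ?_, rfl⟩
      rw [Finset.mem_filter, Finset.mem_product]
      exact ⟨⟨hs.1, hs.2⟩, by simp⟩
  rw [h2]
  push_cast
  ring

/-- the smoothed function has close Fourier coefficients -/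
lemma hat_Fop_id_close (S : Finset (ZMod q)) (hS : S.Nonempty) (f : ZMod q → ℝ)
    (hf : ∀ u, ‖(f u : ℂ)‖ ≤ 1) (A : ℝ) (t : ZMod q)
    (h : ‖hat (fun u => (f u : ℂ)) t‖ ≤ A ∨
      (1 - A) * S.card ≤ ((S.filter fun s => s + t ∈ S).card : ℝ)) :
    ‖hat (fun u => (f u : ℂ)) t -
      hat (fun x => ((Fop (p := q) (P := q) id S f x : ℝ) : ℂ)) t‖ ≤ A := by
  rw [hat_Fop_id]
  have hc : (0 : ℝ) < S.card := by exact_mod_cast hS.card_pos
  have h1 : ((S.filter fun s => s + t ∈ S).card : ℝ) / S.card ≤ 1 := by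
    rw [div_le_one hc]
    exact_mod_cast Finset.card_filter_le _ _
  have h0 : 0 ≤ ((S.filter fun s => s + t ∈ S).card : ℝ) / S.card := by positivity
  have h2 : hat (fun u => (f u : ℂ)) t - ((((S.filter fun s => s + t ∈ S).card : ℝ) /
      S.card : ℝ) : ℂ) * hat (fun u => (f u : ℂ)) t =
      (((1 - ((S.filter fun s => s + t ∈ S).card : ℝ) / S.card : ℝ)) : ℂ) *
        hat (fun u => (f u : ℂ)) t := by
    push_cast; ring
  rw [h2, norm_mul, Complex.norm_real, Real.norm_eq_abs, abs_of_nonneg (by linarith)]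
  have h3 := norm_nonneg (hat (fun u => (f u : ℂ)) t)
  rcases h with h | h
  · nlinarith
  · have h4 := norm_hat_le (fun u => (f u : ℂ)) hf t
    have h5 : 1 - A ≤ ((S.filter fun s => s + t ∈ S).card : ℝ) / S.card := by
      rw [le_div_iff₀ hc]; exact h
    nlinarith

end

section
variable {p P : ℕ} [NeZero p] [NeZero P]

/-- exact transfer of the trilinear form -/
lemma TT_transfer (φ : ZMod p → ZMod P) (S : Finset (ZMod p)) (f₁ f₂ f₃ : ZMod p → ℝ)
    (α β : ZMod p) (α' β' : ZMod P)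
    (hα : ∀ s₁ ∈ S, ∀ s₂ ∈ S, ∀ s₃ ∈ S, ∀ s₄ ∈ S,
      ((φ s₂ - φ s₁) + α' * (φ s₄ - φ s₃) = 0 ↔ (s₂ - s₁) + α * (s₄ - s₃) = 0))
    (hβ : ∀ s₁ ∈ S, ∀ s₂ ∈ S, ∀ s₃ ∈ S, ∀ s₄ ∈ S,
      ((φ s₂ - φ s₁) + β' * (φ s₄ - φ s₃) = 0 ↔ (s₂ - s₁) + β * (s₄ - s₃) = 0)) :
    TT α' β' (fun x => ((Fop φ S f₁ x : ℝ) : ℂ)) (fun x => ((Fop φ S f₂ x : ℝ) : ℂ))
      (fun x => ((Fop φ S f₃ x : ℝ) : ℂ)) * (p : ℂ) ^ 2 =
    TT α β (fun x => ((Fop (p := p) (P := p) id S f₁ x : ℝ) : ℂ))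
      (fun x => ((Fop (p := p) (P := p) id S f₂ x : ℝ) : ℂ))
      (fun x => ((Fop (p := p) (P := p) id S f₃ x : ℝ) : ℂ)) * (P : ℂ) ^ 2 := by
  have h1 : ∀ f : ZMod p → ℝ, (fun x => ((Fop φ S f x : ℝ) : ℂ)) = trig (S ×ˢ S)
      (fun j => hat (fun u => (f u : ℂ)) (j.2 - j.1) / S.card) (fun j => φ j.2 - φ j.1) :=
    fun f => funext fun x => Fop_trig φ S f x
  have h2 : ∀ f : ZMod p → ℝ, (fun x => ((Fop (p := p) (P := p) id S f x : ℝ) : ℂ)) =
      trig (S ×ˢ S) (fun j => hat (fun u => (f u : ℂ)) (j.2 - j.1) / S.card)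
        (fun j => id j.2 - id j.1) :=
    fun f => funext fun x => Fop_trig id S f x
  rw [h1, h1, h1, h2, h2, h2, TT_trig, TT_trig]
  have h3 : ∀ i ∈ S ×ˢ S, ∀ j ∈ S ×ˢ S, ∀ k ∈ S ×ˢ S,
      ((φ i.2 - φ i.1 + α' * (φ k.2 - φ k.1) = 0 ∧ φ j.2 - φ j.1 + β' * (φ k.2 - φ k.1) = 0) ↔
        (id i.2 - id i.1 + α * (id k.2 - id k.1) = 0 ∧
          id j.2 - id j.1 + β * (id k.2 - id k.1) = 0)) := by
    intro i hi j hj k hk
    rw [Finset.mem_product] at hi hj hk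
    simp only [id]
    rw [hα i.1 hi.1 i.2 hi.2 k.1 hk.1 k.2 hk.2, hβ j.1 hj.1 j.2 hj.2 k.1 hk.1 k.2 hk.2]
  rw [mul_comm ((P : ℂ) ^ 2), mul_assoc, mul_comm ((p : ℂ) ^ 2), mul_assoc,
    mul_comm ((P : ℂ) ^ 2)]
  congr 1
  refine Finset.sum_congr rfl fun i hi => Finset.sum_congr rfl fun j hj =>
    Finset.sum_congr rfl fun k hk => ?_
  simp only [h3 i hi j hj k hk]

end

end Pool.Agent.MP_0bef22_co
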