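import Mathlib

open Finset

namespace Pool.Agent.MP_0bef22_co

/-- Extension of a homomorphism to `ℚ` along an injection. -/
lemma exists_extend {X Y : Type} [AddCommGroup X] [AddCommGroup Y] (i : X →+ Y)
    (hi : Function.Injective i) (g : X →+ ℚ) : ∃ h : Y →+ ℚ, ∀ x, h (i x) = g x := by
  obtain ⟨h, hh⟩ := (Module.Baer.of_divisible ℚ).extension_property_addMonoidHom i hi g
  exact ⟨h, fun x => by rw [← hh]; rfl⟩

/-- Lifting small linear relations from `ZMod p` to `ZMod (p * m)`. -/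
theorem lift_lemma (B K : ℕ) : ∃ p₀ : ℕ, ∀ p : ℕ, p₀ ≤ p → ∀ s : Fin B → ZMod p,
    ∃ q : ℕ, 0 < q ∧ ∀ l : ℕ, ∃ φ : Fin B → ZMod (p * (1 + q * l)),
      (∀ i, ZMod.castHom (Dvd.intro _ rfl : p ∣ p * (1 + q * l)) (ZMod p) (φ i) = s i) ∧
      ∀ (k : Fin B → ℤ) (c : ℤ), (∀ i, |k i| ≤ K) → |c| ≤ K →
        ∑ i, (k i : ZMod p) * s i = (c : ZMod p) →
        ∑ i, (k i : ZMod (p * (1 + q * l))) * φ i = (c : ZMod (p * (1 + q * l))) := by
  classical
  let Box : Finset ((Fin B → ℤ) × ℤ) :=
    (Fintype.piFinset fun _ => Finset.Icc (-(K : ℤ)) K) ×ˢ Finset.Icc (-(K : ℤ)) K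
  let bad : Finset ((Fin B → ℤ) × ℤ) → Prop := fun R =>
    ∃ c : ℤ, c ≠ 0 ∧ ((0 : Fin B → ℤ), c) ∈ AddSubgroup.closure (R : Set ((Fin B → ℤ) × ℤ))
  let C : Finset ((Fin B → ℤ) × ℤ) → ℕ := fun R =>
    if h : bad R then (Classical.choose h).natAbs else 0
  refine ⟨Box.powerset.sup C + 1, ?_⟩
  intro p hp s
  have hp0 : 0 < p := by omega
  haveI : NeZero p := ⟨hp0.ne'⟩
  let R : Finset ((Fin B → ℤ) × ℤ) :=
    Box.filter fun kc => ∑ i, (kc.1 i : ZMod p) * s i = (kc.2 : ZMod p)
  let ev : (Fin B → ℤ) × ℤ →+ ZMod p :=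
    { toFun := fun kc => ∑ i, (kc.1 i : ZMod p) * s i - (kc.2 : ZMod p)
      map_zero' := by simp
      map_add' := by
        intro x y
        simp only [Prod.fst_add, Prod.snd_add, Pi.add_apply, Int.cast_add, add_mul,
          Finset.sum_add_distrib]
        ring }
  have hker : AddSubgroup.closure (R : Set ((Fin B → ℤ) × ℤ)) ≤ ev.ker := by
    rw [AddSubgroup.closure_le]
    intro kc hkc
    have : ∑ i, (kc.1 i : ZMod p) * s i = (kc.2 : ZMod p) := by
      have := Finset.mem_coe.1 hkc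
      exact (Finset.mem_filter.1 this).2
    show ev kc = 0
    show ∑ i, (kc.1 i : ZMod p) * s i - (kc.2 : ZMod p) = 0
    rw [this, sub_self]
  have hinj : ∀ c : ℤ, ((0 : Fin B → ℤ), c) ∈
      AddSubgroup.closure (R : Set ((Fin B → ℤ) × ℤ)) → c = 0 := by
    intro c hc
    by_contra hne
    have hbad : bad R := ⟨c, hne, hc⟩
    have hspec := Classical.choose_spec hbad
    have h1 := hker hspec.2
    have h2 : ev ((0 : Fin B → ℤ), Classical.choose hbad) = 0 := h1
    have h3 : ev ((0 : Fin B → ℤ), Classical.choose hbad) =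
        -((Classical.choose hbad : ℤ) : ZMod p) := by
      show ∑ i, (((0 : Fin B → ℤ) i : ℤ) : ZMod p) * s i - ((Classical.choose hbad : ℤ) : ZMod p) = _
      simp
    rw [h3, neg_eq_zero, ZMod.intCast_zmod_eq_zero_iff_dvd] at h2
    have h4 : p ≤ (Classical.choose hbad).natAbs :=
      Nat.le_of_dvd (Int.natAbs_pos.2 hspec.1) (Int.natCast_dvd.1 h2)
    have h5 : C R ≤ Box.powerset.sup C :=
      Finset.le_sup (f := C) (Finset.mem_powerset.2 (Finset.filter_subset _ _))
    have h6 : C R = (Classical.choose hbad).natAbs := by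
      simp only [C]
      rw [dif_pos hbad]
    omega
  -- the integer lifts
  let st : Fin B → ℤ := fun i => ((s i).val : ℤ)
  have hst : ∀ i, ((st i : ℤ) : ZMod p) = s i := by
    intro i
    simp [st]
  let L := AddSubgroup.closure (R : Set ((Fin B → ℤ) × ℤ))
  have hdiv : ∀ kc ∈ L, (p : ℤ) ∣ ∑ i, kc.1 i * st i - kc.2 := by
    intro kc hkc
    have h1 : ev kc = 0 := hker hkc
    have h2 : ev kc = ((∑ i, kc.1 i * st i - kc.2 : ℤ) : ZMod p) := by
      show ∑ i, (kc.1 i : ZMod p) * s i - (kc.2 : ZMod p) = _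
      push_cast
      simp only [hst]
    rw [h2] at h1
    exact (ZMod.intCast_zmod_eq_zero_iff_dvd _ _).1 h1
  let g : L →+ ℚ :=
    { toFun := fun kc => ((∑ i, kc.1.1 i * st i - kc.1.2 : ℤ) : ℚ) / p
      map_zero' := by simp
      map_add' := by
        intro x y
        simp only [AddSubgroup.coe_add, Prod.fst_add, Prod.snd_add, Pi.add_apply, add_mul,
          Finset.sum_add_distrib]
        push_cast
        ring }
  let inc : L →+ (Fin B → ℤ) := (AddMonoidHom.fst _ _).comp L.subtype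
  have hinc : Function.Injective inc := by
    rw [injective_iff_map_eq_zero]
    intro x hx
    have h1 : x.1.1 = 0 := hx
    have h2 : x.1.2 = 0 := by
      apply hinj
      have : ((0 : Fin B → ℤ), x.1.2) = x.1 := by
        rw [← h1]
      rw [this]
      exact x.2
    apply Subtype.ext
    exact Prod.ext h1 h2
  obtain ⟨h, hh⟩ := exists_extend inc hinc g
  let τ : Fin B → ℚ := fun i => h (Pi.single i 1)
  have hτ : ∀ k : Fin B → ℤ, h k = ∑ i, (k i : ℚ) * τ i := by
    intro k
    have hk : k = ∑ i, k i • (Pi.single i (1 : ℤ) : Fin B → ℤ) := by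
      funext j
      rw [Finset.sum_apply, Finset.sum_eq_single j]
      · simp
      · intro b _ hb
        simp [Pi.single_apply, Ne.symm hb]
      · simp
    conv_lhs => rw [hk]
    rw [map_sum]
    refine Finset.sum_congr rfl fun i _ => ?_
    rw [map_zsmul, zsmul_eq_mul]
  let q : ℕ := ∏ i, (τ i).den
  have hq : 0 < q := Finset.prod_pos fun i _ => (τ i).den_pos
  have hz : ∀ i, ∃ z : ℤ, (z : ℚ) = q * τ i := by
    intro i
    obtain ⟨w, hw⟩ : (τ i).den ∣ q := Finset.dvd_prod_of_mem _ (Finset.mem_univ i)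
    refine ⟨w * (τ i).num, ?_⟩
    rw [hw]
    push_cast
    have : ((τ i).den : ℚ) * τ i = (τ i).num := by
      rw [mul_comm]; exact Rat.mul_den_eq_num (τ i)
    rw [mul_comm ((τ i).den : ℚ) (w : ℚ), mul_assoc, this]
  choose z hz using hz
  refine ⟨q, hq, fun l => ?_⟩
  refine ⟨fun i => ((st i + p * l * z i : ℤ) : ZMod (p * (1 + q * l))), fun i => ?_, ?_⟩
  · rw [map_intCast]
    push_cast
    rw [hst]
    simp
  · intro k c hk hc hrel
    have hmem : (k, c) ∈ L := by
      apply AddSubgroup.subset_closure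
      rw [Finset.mem_coe, Finset.mem_filter]
      refine ⟨?_, hrel⟩
      rw [Finset.mem_product]
      refine ⟨?_, ?_⟩
      · rw [Fintype.mem_piFinset]
        intro i
        rw [Finset.mem_Icc]
        exact abs_le.1 (hk i)
      · rw [Finset.mem_Icc]
        exact abs_le.1 hc
    obtain ⟨t, ht⟩ := hdiv _ hmem
    simp only at ht
    have h1 : h k = t := by
      have := hh ⟨(k, c), hmem⟩
      have e1 : inc ⟨(k, c), hmem⟩ = k := rfl
      have e2 : g ⟨(k, c), hmem⟩ = ((∑ i, k i * st i - c : ℤ) : ℚ) / p := rfl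
      rw [e1, e2, ht] at this
      rw [this]
      push_cast
      field_simp
    have h2 : (q : ℤ) * t = ∑ i, k i * z i := by
      have : ((q : ℤ) * t : ℚ) = ∑ i, (k i : ℚ) * (z i : ℚ) := by
        push_cast
        rw [← h1, hτ, Finset.mul_sum]
        refine Finset.sum_congr rfl fun i _ => ?_
        rw [hz]; ring
      exact_mod_cast this
    have h3 : ∑ i, k i * (st i + p * l * z i) = c + (p * (1 + q * l) : ℤ) * t := by
      have : ∑ i, k i * (st i + p * l * z i) = ∑ i, k i * st i + p * l * ∑ i, k i * z i := by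
        rw [Finset.mul_sum, ← Finset.sum_add_distrib]
        refine Finset.sum_congr rfl fun i _ => ?_
        ring
      rw [this, ← h2]
      have h4 : ∑ i, k i * st i = c + p * t := by linarith
      rw [h4]; ring
    have h5 : ((∑ i, k i * (st i + p * l * z i) : ℤ) : ZMod (p * (1 + q * l))) =
        ((c + (p * (1 + q * l) : ℤ) * t : ℤ) : ZMod (p * (1 + q * l))) := by rw [h3]
    have h6 : (((p * (1 + q * l) : ℤ)) : ZMod (p * (1 + q * l))) = 0 := by
      have : ((p * (1 + q * l) : ℤ)) = ((p * (1 + q * l) : ℕ) : ℤ) := by push_cast; ring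
      rw [this, Int.cast_natCast, ZMod.natCast_self]
    rw [Int.cast_add, Int.cast_mul, h6, zero_mul, add_zero] at h5
    rw [← h5]
    push_cast
    rfl

end Pool.Agent.MP_0bef22_co
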