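import Mathlib
import Pool.Agent.MP_0bef22_co.Lift
import Pool.Agent.MP_0bef22_co.Folner
import Pool.Agent.MP_0bef22_co.Kernel

open Finset

namespace Pool.Agent.MP_0bef22_co

lemma sum_rel {R : Type} [CommRing R] {B : ℕ} (v : Fin B → R) (c a : ℕ) (i₁ i₂ i₃ i₄ : Fin B) :
    ∑ i, (((c : ℤ) * ((if i = i₂ then 1 else 0) - (if i = i₁ then 1 else 0)) +
      (a : ℤ) * ((if i = i₄ then 1 else 0) - (if i = i₃ then 1 else 0)) : ℤ) : R) * v i =
      c * (v i₂ - v i₁) + a * (v i₄ - v i₃) := by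
  have : ∀ i, (((c : ℤ) * ((if i = i₂ then 1 else 0) - (if i = i₁ then 1 else 0)) +
      (a : ℤ) * ((if i = i₄ then 1 else 0) - (if i = i₃ then 1 else 0)) : ℤ) : R) * v i =
      c * ((if i = i₂ then v i else 0) - (if i = i₁ then v i else 0)) +
      a * ((if i = i₄ then v i else 0) - (if i = i₃ then v i else 0)) := by
    intro i
    push_cast
    split_ifs <;> ring
  simp only [this]
  rw [Finset.sum_add_distrib, ← Finset.mul_sum, ← Finset.mul_sum, Finset.sum_sub_distrib,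
    Finset.sum_sub_distrib]
  simp

lemma abs_rel {B : ℕ} (c a K : ℕ) (hK : 2 * c + 2 * a ≤ K) (i₁ i₂ i₃ i₄ i : Fin B) :
    |((c : ℤ) * ((if i = i₂ then 1 else 0) - (if i = i₁ then 1 else 0)) +
      (a : ℤ) * ((if i = i₄ then 1 else 0) - (if i = i₃ then 1 else 0)) : ℤ)| ≤ (K : ℤ) := by
  have hK' : (2 * c + 2 * a : ℤ) ≤ K := by exact_mod_cast hK
  have hc : (0 : ℤ) ≤ c := by positivity
  have ha : (0 : ℤ) ≤ a := by positivity
  rw [abs_le]
  split_ifs <;> constructor <;> linarith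

theorem exists_good (a b c B : ℕ) : ∃ p₀ : ℕ, ∀ p : ℕ, p₀ ≤ p → ∀ S : Finset (ZMod p),
    S.Nonempty → S.card ≤ B → ∃ q : ℕ, 0 < q ∧ ∀ l : ℕ, ∃ φ : ZMod p → ZMod (p * (1 + q * l)),
      (∀ s ∈ S, ZMod.castHom (Dvd.intro _ rfl : p ∣ p * (1 + q * l)) (ZMod p) (φ s) = s) ∧
      (∀ s₁ ∈ S, ∀ s₂ ∈ S, ∀ s₃ ∈ S, ∀ s₄ ∈ S,
        (c : ZMod p) * (s₂ - s₁) + (a : ZMod p) * (s₄ - s₃) = 0 →
        (c : ZMod (p * (1 + q * l))) * (φ s₂ - φ s₁) +
          (a : ZMod (p * (1 + q * l))) * (φ s₄ - φ s₃) = 0) ∧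
      (∀ s₁ ∈ S, ∀ s₂ ∈ S, ∀ s₃ ∈ S, ∀ s₄ ∈ S,
        (c : ZMod p) * (s₂ - s₁) + (b : ZMod p) * (s₄ - s₃) = 0 →
        (c : ZMod (p * (1 + q * l))) * (φ s₂ - φ s₁) +
          (b : ZMod (p * (1 + q * l))) * (φ s₄ - φ s₃) = 0) ∧
      (∀ s ∈ S, s + 1 ∈ S → φ (s + 1) = φ s + 1) := by
  classical
  obtain ⟨p₀, hp₀⟩ := lift_lemma B (2 * (a + b + c) + 2)
  refine ⟨p₀, fun p hp S hS hB => ?_⟩
  -- an enumeration of `S`
  have henum : ∃ s : Fin B → ZMod p, (∀ i, s i ∈ S) ∧ ∀ x ∈ S, ∃ i, s i = x := by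
    obtain ⟨x₀, hx₀⟩ := hS
    have eqv := S.equivFin
    refine ⟨fun i => if h : i.val < S.card then (eqv.symm ⟨i.val, h⟩ : ZMod p) else x₀, ?_, ?_⟩
    · intro i
      simp only
      split_ifs
      · exact (eqv.symm _).2
      · exact hx₀
    · intro x hx
      have h1 : (eqv ⟨x, hx⟩).val < S.card := (eqv ⟨x, hx⟩).is_lt
      refine ⟨⟨(eqv ⟨x, hx⟩).val, lt_of_lt_of_le h1 hB⟩, ?_⟩
      simp only
      rw [dif_pos h1]
      simp
  obtain ⟨s, hsS, hsurj⟩ := henum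
  obtain ⟨q, hq, hl⟩ := hp₀ p hp s
  refine ⟨q, hq, fun l => ?_⟩
  obtain ⟨φ', h1, h2⟩ := hl l
  let φ : ZMod p → ZMod (p * (1 + q * l)) := fun x =>
    if h : ∃ i, s i = x then φ' (Classical.choose h) else 0
  have hφ : ∀ x ∈ S, ∃ i, s i = x ∧ φ x = φ' i := by
    intro x hx
    have h := hsurj x hx
    exact ⟨Classical.choose h, Classical.choose_spec h, by simp only [φ]; rw [dif_pos h]⟩
  have hgen : ∀ d : ℕ, d ≤ a + b → ∀ s₁ ∈ S, ∀ s₂ ∈ S, ∀ s₃ ∈ S, ∀ s₄ ∈ S,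
        (c : ZMod p) * (s₂ - s₁) + (d : ZMod p) * (s₄ - s₃) = 0 →
        (c : ZMod (p * (1 + q * l))) * (φ s₂ - φ s₁) +
          (d : ZMod (p * (1 + q * l))) * (φ s₄ - φ s₃) = 0 := by
    intro d hd s₁ hs₁ s₂ hs₂ s₃ hs₃ s₄ hs₄ hrel
    obtain ⟨i₁, e₁, f₁⟩ := hφ s₁ hs₁
    obtain ⟨i₂, e₂, f₂⟩ := hφ s₂ hs₂
    obtain ⟨i₃, e₃, f₃⟩ := hφ s₃ hs₃
    obtain ⟨i₄, e₄, f₄⟩ := hφ s₄ hs₄
    have := h2 (fun i => (c : ℤ) * ((if i = i₂ then 1 else 0) - (if i = i₁ then 1 else 0)) +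
      (d : ℤ) * ((if i = i₄ then 1 else 0) - (if i = i₃ then 1 else 0))) 0
      (fun i => abs_rel c d _ (by omega) i₁ i₂ i₃ i₄ i) (by simp; positivity)
      (by rw [sum_rel, e₁, e₂, e₃, e₄, hrel]; simp)
    rw [sum_rel] at this
    rw [f₁, f₂, f₃, f₄, this]
    simp
  refine ⟨φ, ?_, hgen a (by omega), hgen b (by omega), ?_⟩
  · intro x hx
    obtain ⟨i, e1, f1⟩ := hφ x hx
    rw [f1, h1, e1]
  · intro x hx hx1
    obtain ⟨i₁, e₁, f₁⟩ := hφ x hx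
    obtain ⟨i₂, e₂, f₂⟩ := hφ (x + 1) hx1
    have := h2 (fun i => ((1 : ℕ) : ℤ) * ((if i = i₂ then 1 else 0) - (if i = i₁ then 1 else 0)) +
      ((0 : ℕ) : ℤ) * ((if i = i₁ then 1 else 0) - (if i = i₁ then 1 else 0))) 1
      (fun i => abs_rel 1 0 _ (by omega) i₁ i₂ i₁ i₁ i) (by simp; linarith)
      (by rw [sum_rel, e₁, e₂]; simp)
    rw [sum_rel] at this
    rw [f₁, f₂]
    have h3 : φ' i₂ - φ' i₁ = 1 := by simpa using this
    rw [← h3]; ring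

lemma rel_iff {n : ℕ} (c a : ℕ) (hc : (c : ZMod n) * (c : ZMod n)⁻¹ = 1) (X Y : ZMod n) :
    X + ((a : ZMod n) * (c : ZMod n)⁻¹) * Y = 0 ↔ (c : ZMod n) * X + (a : ZMod n) * Y = 0 := by
  constructor
  · intro h
    have h1 : (c : ZMod n) * X + (a : ZMod n) * Y =
        (c : ZMod n) * (X + ((a : ZMod n) * (c : ZMod n)⁻¹) * Y) := by
      have h2 : (c : ZMod n) * (X + ((a : ZMod n) * (c : ZMod n)⁻¹) * Y) = (c : ZMod n) * X +
        (a : ZMod n) * ((c : ZMod n) * (c : ZMod n)⁻¹) * Y := by ring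
      rw [h2, hc]; ring
    rw [h1, h, mul_zero]
  · intro h
    have h1 : X + ((a : ZMod n) * (c : ZMod n)⁻¹) * Y =
        (c : ZMod n)⁻¹ * ((c : ZMod n) * X + (a : ZMod n) * Y) := by
      have h2 : (c : ZMod n)⁻¹ * ((c : ZMod n) * X + (a : ZMod n) * Y) =
        ((c : ZMod n) * (c : ZMod n)⁻¹) * X + ((a : ZMod n) * (c : ZMod n)⁻¹) * Y := by ring
      rw [h2, hc]; ring
    rw [h1, h, mul_zero]

lemma isUnit_ratio {n : ℕ} (a c : ℕ) (ha : n.Coprime a) (hc : n.Coprime c) :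
    IsUnit ((a : ZMod n) * (c : ZMod n)⁻¹) := by
  refine IsUnit.mul ((ZMod.isUnit_iff_coprime a n).2 ha.symm) ?_
  have h := ZMod.coe_mul_inv_eq_one c hc.symm
  rw [mul_comm] at h
  exact IsUnit.of_mul_eq_one _ h

/-- the transfer theorem on cyclic groups -/
theorem transfer_core (a b c r : ℕ) (ha : 0 < a) (hb : 0 < b) (hc : 0 < c)
    (ε η : ℝ) (hε : 0 < ε) (hη : 0 < η) :
    ∃ p₀ : ℕ, ∀ p : ℕ, p₀ ≤ p → ∀ [NeZero p], p.Coprime a → p.Coprime b → p.Coprime c →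
    ∀ f : Fin r → ZMod p → ℝ, (∀ i u, 0 ≤ f i u ∧ f i u ≤ 1) →
    ∃ Q : ℕ, 0 < Q ∧ ∀ l : ℕ, ∀ P : ℕ, P = p * (1 + Q * l) → ∀ [NeZero P],
      P.Coprime a ∧ P.Coprime b ∧ P.Coprime c ∧
      ∃ w : ZMod P → ZMod p → ℝ, (∀ x u, 0 ≤ w x u) ∧ (∀ x, ∑ u, w x u = 1) ∧
        (∀ x, ∑ u, w x u * ‖1 - e u * e (-x)‖ ^ 2 ≤ 2 * η) ∧
        ∀ i j k : Fin r, ‖TT ((a : ZMod P) * (c : ZMod P)⁻¹) ((b : ZMod P) * (c : ZMod P)⁻¹)
            (fun x => ((∑ u, w x u * f i u : ℝ) : ℂ)) (fun x => ((∑ u, w x u * f j u : ℝ) : ℂ))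
            (fun x => ((∑ u, w x u * f k u : ℝ) : ℂ)) / (P : ℂ) ^ 2 -
          TT ((a : ZMod p) * (c : ZMod p)⁻¹) ((b : ZMod p) * (c : ZMod p)⁻¹)
            (fun x => ((f i x : ℝ) : ℂ)) (fun x => ((f j x : ℝ) : ℂ))
            (fun x => ((f k x : ℝ) : ℂ)) / (p : ℂ) ^ 2‖ ≤ 3 * ε := by
  classical
  let η₀ := min ε η
  have hη₀ : 0 < η₀ := lt_min hε hη
  let d : ℕ := r * ⌈1 / ε ^ 2⌉₊ + 1
  obtain ⟨B, hB⟩ := folner d η₀ hη₀
  obtain ⟨p₀, hp₀⟩ := exists_good a b c B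
  refine ⟨p₀, fun p hp _ hpa hpb hpc f hf => ?_⟩
  have hfn : ∀ i u, ‖((f i u : ℝ) : ℂ)‖ ≤ 1 := by
    intro i u
    rw [Complex.norm_real, Real.norm_eq_abs, abs_of_nonneg (hf i u).1]
    exact (hf i u).2
  -- the spectrum
  let T : Finset (ZMod p) := insert 1 ((Finset.univ : Finset (Fin r)).biUnion fun i =>
    Finset.univ.filter fun t => ε < ‖hat (fun u => ((f i u : ℝ) : ℂ)) t‖)
  have hT : T.card ≤ d := by
    refine le_trans (Finset.card_insert_le _ _) ?_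
    refine Nat.add_le_add_right ?_ 1
    refine le_trans Finset.card_biUnion_le ?_
    refine le_trans (Finset.sum_le_card_nsmul _ _ ⌈1 / ε ^ 2⌉₊ fun i _ => ?_) ?_
    · have h1 := parseval_le (fun u => ((f i u : ℝ) : ℂ)) (hfn i)
      have h2 : (((Finset.univ.filter fun t => ε < ‖hat (fun u => ((f i u : ℝ) : ℂ)) t‖).card :
          ℝ)) * ε ^ 2 ≤ 1 := by
        refine le_trans ?_ h1
        rw [← nsmul_eq_mul]
        refine le_trans ?_ (Finset.sum_le_sum_of_subset_of_nonneg (Finset.filter_subset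
          (fun t => ε < ‖hat (fun u => ((f i u : ℝ) : ℂ)) t‖) Finset.univ)
          (fun _ _ _ => by positivity))
        refine Finset.card_nsmul_le_sum _ _ _ fun t ht => ?_
        have h3 := (Finset.mem_filter.1 ht).2
        exact pow_le_pow_left₀ hε.le h3.le 2
      have h3 : (((Finset.univ.filter fun t => ε < ‖hat (fun u => ((f i u : ℝ) : ℂ)) t‖).card :
          ℝ)) ≤ 1 / ε ^ 2 := by
        rw [le_div_iff₀ (by positivity)]; exact h2
      exact_mod_cast h3.trans (Nat.le_ceil _)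
    · rw [Finset.card_univ, Fintype.card_fin, smul_eq_mul]
  obtain ⟨S, hSne, hScard, hSinv⟩ := hB (ZMod p) T hT
  obtain ⟨q, hq, hl⟩ := hp₀ p hp S hSne hScard
  refine ⟨q * (a * b * c), by positivity, fun l P hP _ => ?_⟩
  have hP' : P = p * (1 + q * (a * b * c * l)) := by rw [hP]; ring
  subst hP'
  have hPa : (p * (1 + q * (a * b * c * l))).Coprime a := by
    refine Nat.Coprime.mul_left hpa ?_
    rw [show 1 + q * (a * b * c * l) = 1 + a * (q * b * c * l) by ring]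
    simp
  have hPb : (p * (1 + q * (a * b * c * l))).Coprime b := by
    refine Nat.Coprime.mul_left hpb ?_
    rw [show 1 + q * (a * b * c * l) = 1 + b * (q * a * c * l) by ring]
    simp
  have hPc : (p * (1 + q * (a * b * c * l))).Coprime c := by
    refine Nat.Coprime.mul_left hpc ?_
    rw [show 1 + q * (a * b * c * l) = 1 + c * (q * a * b * l) by ring]
    simp
  refine ⟨hPa, hPb, hPc, ?_⟩
  obtain ⟨φ, g1, g2, g3, g4⟩ := hl (a * b * c * l)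
  have hSc : (0 : ℝ) < S.card := by exact_mod_cast hSne.card_pos
  refine ⟨W φ S, W_nonneg φ S, W_sum φ S hSne, fun x => ?_, fun i j k => ?_⟩
  · refine W_local φ S hSne η g4 ?_ x
    have h1 := hSinv 1 (Finset.mem_insert_self _ _)
    have h2 : η₀ ≤ η := min_le_right _ _
    nlinarith
  · have hcp := ZMod.coe_mul_inv_eq_one c hpc.symm
    have hcP := ZMod.coe_mul_inv_eq_one c hPc.symm
    have hgen : ∀ d : ℕ, (∀ s₁ ∈ S, ∀ s₂ ∈ S, ∀ s₃ ∈ S, ∀ s₄ ∈ S,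
        (c : ZMod p) * (s₂ - s₁) + (d : ZMod p) * (s₄ - s₃) = 0 →
        (c : ZMod (p * (1 + q * (a * b * c * l)))) * (φ s₂ - φ s₁) +
          (d : ZMod (p * (1 + q * (a * b * c * l)))) * (φ s₄ - φ s₃) = 0) →
        ∀ s₁ ∈ S, ∀ s₂ ∈ S, ∀ s₃ ∈ S, ∀ s₄ ∈ S,
        ((φ s₂ - φ s₁) + ((d : ZMod (p * (1 + q * (a * b * c * l)))) *
          (c : ZMod (p * (1 + q * (a * b * c * l))))⁻¹) * (φ s₄ - φ s₃) = 0 ↔
          (s₂ - s₁) + ((d : ZMod p) * (c : ZMod p)⁻¹) * (s₄ - s₃) = 0) := by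
      intro d hd s₁ hs₁ s₂ hs₂ s₃ hs₃ s₄ hs₄
      rw [rel_iff c d hcp, rel_iff c d hcP]
      constructor
      · intro h
        have h1 := congrArg (ZMod.castHom (Dvd.intro _ rfl :
          p ∣ p * (1 + q * (a * b * c * l))) (ZMod p)) h
        rw [map_add, map_mul, map_mul, map_sub, map_sub, map_natCast, map_natCast, map_zero,
          g1 s₁ hs₁, g1 s₂ hs₂, g1 s₃ hs₃, g1 s₄ hs₄] at h1
        exact h1
      · exact hd s₁ hs₁ s₂ hs₂ s₃ hs₃ s₄ hs₄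
    have htr := TT_transfer φ S (f i) (f j) (f k)
      ((a : ZMod p) * (c : ZMod p)⁻¹) ((b : ZMod p) * (c : ZMod p)⁻¹) _ _
      (hgen a g2) (hgen b g3)
    have hclose := TT_close ((a : ZMod p) * (c : ZMod p)⁻¹) ((b : ZMod p) * (c : ZMod p)⁻¹)
      (isUnit_ratio a c hpa hpc) (isUnit_ratio b c hpb hpc)
      (fun x => ((Fop (p := p) (P := p) id S (f i) x : ℝ) : ℂ))
      (fun x => ((Fop (p := p) (P := p) id S (f j) x : ℝ) : ℂ))
      (fun x => ((Fop (p := p) (P := p) id S (f k) x : ℝ) : ℂ))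
      (fun x => ((f i x : ℝ) : ℂ)) (fun x => ((f j x : ℝ) : ℂ)) (fun x => ((f k x : ℝ) : ℂ))
    have hFn : ∀ i x, ‖((Fop (p := p) (P := p) id S (f i) x : ℝ) : ℂ)‖ ≤ 1 := by
      intro i x
      rw [Complex.norm_real, Real.norm_eq_abs,
        abs_of_nonneg (Fop_nonneg id S (f i) (fun u => (hf i u).1) x)]
      exact Fop_le_one id S hSne (f i) (fun u => (hf i u).2) x
    have hcl : ∀ i t, ‖hat (fun x => ((Fop (p := p) (P := p) id S (f i) x : ℝ) : ℂ)) t -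
        hat (fun u => ((f i u : ℝ) : ℂ)) t‖ ≤ ε := by
      intro i t
      rw [norm_sub_rev]
      refine hat_Fop_id_close S hSne (f i) (hfn i) ε t ?_
      by_cases ht : t ∈ T
      · right
        have h1 := hSinv t ht
        have h2 : η₀ ≤ ε := min_le_left _ _
        nlinarith
      · left
        by_contra hcon
        rw [not_le] at hcon
        apply ht
        refine Finset.mem_insert_of_mem (Finset.mem_biUnion.2 ⟨i, Finset.mem_univ _, ?_⟩)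
        exact Finset.mem_filter.2 ⟨Finset.mem_univ _, hcon⟩
    have h5 := hclose (hFn i) (hFn j) (hFn k) (hfn i) (hfn j) ε hε.le (hcl i) (hcl j) (hcl k)
    have hpne := q_ne (q := p)
    have hPne := q_ne (q := p * (1 + q * (a * b * c * l)))
    have h6 : TT ((a : ZMod (p * (1 + q * (a * b * c * l)))) *
          (c : ZMod (p * (1 + q * (a * b * c * l))))⁻¹)
        ((b : ZMod (p * (1 + q * (a * b * c * l)))) *
          (c : ZMod (p * (1 + q * (a * b * c * l))))⁻¹)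
        (fun x => ((∑ u, W φ S x u * f i u : ℝ) : ℂ)) (fun x => ((∑ u, W φ S x u * f j u : ℝ) : ℂ))
        (fun x => ((∑ u, W φ S x u * f k u : ℝ) : ℂ)) /
          ((p * (1 + q * (a * b * c * l)) : ℕ) : ℂ) ^ 2 =
        TT ((a : ZMod p) * (c : ZMod p)⁻¹) ((b : ZMod p) * (c : ZMod p)⁻¹)
        (fun x => ((Fop (p := p) (P := p) id S (f i) x : ℝ) : ℂ))
        (fun x => ((Fop (p := p) (P := p) id S (f j) x : ℝ) : ℂ))
        (fun x => ((Fop (p := p) (P := p) id S (f k) x : ℝ) : ℂ)) / (p : ℂ) ^ 2 := by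
      rw [div_eq_div_iff (pow_ne_zero 2 hPne) (pow_ne_zero 2 hpne)]
      exact htr
    rw [h6, ← sub_div, norm_div, norm_pow, Complex.norm_natCast, div_le_iff₀ (by
      have := p_pos (p := p); positivity)]
    linarith

end Pool.Agent.MP_0bef22_co
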