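import Mathlib

open Finset

namespace Pool.Agent.MP_0bef22_co

/-- The set `T_n(E)` of ordered solutions of `a x + b y = c z` in `[n]^3`. -/
def sols (a b c n : ℕ) : Finset (ℕ × ℕ × ℕ) :=
  (Icc 1 n ×ˢ Icc 1 n ×ˢ Icc 1 n).filter fun t => a * t.1 + b * t.2.1 = c * t.2.2

/-- `f` restricts to a surjective map from `[n]` to the three colours. -/
def IsColoring (n : ℕ) (f : ℕ → Fin 3) : Prop := ∀ i : Fin 3, ∃ x ∈ Icc 1 n, f x = i

/-- The proportion of rainbow solutions. -/
noncomputable def rbProp (a b c n : ℕ) (f : ℕ → Fin 3) : ℝ :=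
  (((sols a b c n).filter fun t =>
    f t.1 ≠ f t.2.1 ∧ f t.2.1 ≠ f t.2.2 ∧ f t.1 ≠ f t.2.2).card : ℝ) / (sols a b c n).card

/-- The proportion of monochromatic solutions. -/
noncomputable def monoProp (a b c n : ℕ) (f : ℕ → Fin 3) : ℝ :=
  (((sols a b c n).filter fun t => f t.1 = f t.2.1 ∧ f t.2.1 = f t.2.2).card : ℝ) /
    (sols a b c n).card

/-- The maximal proportion of rainbow solutions over all 3-colorings of `[n]`. -/
noncomputable def rb (a b c n : ℕ) : ℝ := sSup {x | ∃ f, IsColoring n f ∧ rbProp a b c n f = x}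

/-- The minimal proportion of monochromatic solutions over all 3-colorings of `[n]`. -/
noncomputable def mono (a b c n : ℕ) : ℝ := sInf {x | ∃ f, IsColoring n f ∧ monoProp a b c n f = x}

end Pool.Agent.MP_0bef22_co
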