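import Mathlib

open Finset

namespace Pool.Agent.MP_0bef22_co

section
variable {X : Type} [Fintype X] [DecidableEq X] {r : ℕ}

/-- product weight of a colouring -/
noncomputable def wt (g : X → Fin r → ℝ) (F : X → Fin r) : ℝ := ∏ x, g x (F x)

lemma sum_wt (g : X → Fin r → ℝ) : ∑ F : X → Fin r, wt g F = ∏ x, ∑ i, g x i := by
  unfold wt
  rw [Finset.prod_univ_sum]
  simp [Fintype.piFinset_univ]

lemma marginal (g : X → Fin r → ℝ) (h1 : ∀ x, ∑ i, g x i = 1) (x y z : X) (hxy : x ≠ y)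
    (hyz : y ≠ z) (hxz : x ≠ z) (i j k : Fin r) :
    ∑ F : X → Fin r, wt g F * (if F x = i ∧ F y = j ∧ F z = k then 1 else 0) =
      g x i * g y j * g z k := by
  let δ : X → Fin r → ℝ := fun w l => (if w = x then (if l = i then 1 else 0) else 1) *
    (if w = y then (if l = j then 1 else 0) else 1) * (if w = z then (if l = k then 1 else 0) else 1)
  have e1 : ∀ F : X → Fin r, wt g F * (if F x = i ∧ F y = j ∧ F z = k then (1 : ℝ) else 0) =
      wt (fun w l => g w l * δ w l) F := by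
    intro F
    unfold wt
    rw [Finset.prod_mul_distrib]
    congr 1
    simp only [δ]
    rw [Finset.prod_mul_distrib, Finset.prod_mul_distrib]
    rw [Finset.prod_ite_eq' , Finset.prod_ite_eq', Finset.prod_ite_eq']
    simp only [mem_univ, if_true]
    by_cases c1 : F x = i <;> by_cases c2 : F y = j <;> by_cases c3 : F z = k <;> simp [c1, c2, c3]
  simp only [e1]
  rw [sum_wt]
  have e2 : ∀ w : X, ∑ l, g w l * δ w l = (if w = x then g x i else 1) *
      (if w = y then g y j else 1) * (if w = z then g z k else 1) := by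
    intro w
    simp only [δ]
    by_cases c1 : w = x
    · subst c1
      simp [hxy, hxz]
    · by_cases c2 : w = y
      · subst c2
        simp [c1, hyz]
      · by_cases c3 : w = z
        · subst c3
          simp [c1, c2]
        · simp [c1, c2, c3, h1]
  simp only [e2]
  rw [Finset.prod_mul_distrib, Finset.prod_mul_distrib, Finset.prod_ite_eq', Finset.prod_ite_eq',
    Finset.prod_ite_eq']
  simp

/-- there is a colouring doing at least as well as the average -/
theorem derandomize (g : X → Fin r → ℝ) (h0 : ∀ x i, 0 ≤ g x i) (h1 : ∀ x, ∑ i, g x i = 1)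
    (hne : Nonempty (X → Fin r))
    (S : Finset (X × X × X)) (hS : ∀ t ∈ S, t.1 ≠ t.2.1 ∧ t.2.1 ≠ t.2.2 ∧ t.1 ≠ t.2.2)
    (Pat : Finset (Fin r × Fin r × Fin r)) : ∃ F : X → Fin r,
      ∑ t ∈ S, ∑ k ∈ Pat, g t.1 k.1 * g t.2.1 k.2.1 * g t.2.2 k.2.2 ≤
        ((S.filter fun t => (F t.1, F t.2.1, F t.2.2) ∈ Pat).card : ℝ) := by
  obtain ⟨F₀, hF₀⟩ := Finite.exists_max fun F : X → Fin r =>
    ((S.filter fun t => (F t.1, F t.2.1, F t.2.2) ∈ Pat).card : ℝ)
  refine ⟨F₀, ?_⟩
  have hw : ∀ F, 0 ≤ wt g F := fun F => Finset.prod_nonneg fun x _ => h0 _ _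
  have hw1 : ∑ F : X → Fin r, wt g F = 1 := by
    rw [sum_wt]; exact Finset.prod_eq_one fun x _ => h1 x
  have e1 : ∑ t ∈ S, ∑ k ∈ Pat, g t.1 k.1 * g t.2.1 k.2.1 * g t.2.2 k.2.2 =
      ∑ F : X → Fin r, wt g F *
        ((S.filter fun t => (F t.1, F t.2.1, F t.2.2) ∈ Pat).card : ℝ) := by
    have e2 : ∀ F : X → Fin r, ((S.filter fun t => (F t.1, F t.2.1, F t.2.2) ∈ Pat).card : ℝ) =
        ∑ t ∈ S, ∑ k ∈ Pat, if F t.1 = k.1 ∧ F t.2.1 = k.2.1 ∧ F t.2.2 = k.2.2 then
          (1 : ℝ) else 0 := by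
      intro F
      rw [Finset.card_filter]
      push_cast
      refine Finset.sum_congr rfl fun t _ => ?_
      have e3 : ∀ k : Fin r × Fin r × Fin r,
          (F t.1 = k.1 ∧ F t.2.1 = k.2.1 ∧ F t.2.2 = k.2.2) ↔ k = (F t.1, F t.2.1, F t.2.2) := by
        intro k
        constructor
        · rintro ⟨a1, a2, a3⟩
          rw [a1, a2, a3]
        · rintro rfl
          exact ⟨rfl, rfl, rfl⟩
      simp only [e3]
      exact (Finset.sum_ite_eq' Pat (F t.1, F t.2.1, F t.2.2) (fun _ => (1 : ℝ))).symm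
    simp only [e2, Finset.mul_sum]
    symm
    rw [Finset.sum_comm]
    refine Finset.sum_congr rfl fun t ht => ?_
    rw [Finset.sum_comm]
    refine Finset.sum_congr rfl fun k _ => ?_
    obtain ⟨a1, a2, a3⟩ := hS t ht
    exact marginal g h1 t.1 t.2.1 t.2.2 a1 a2 a3 k.1 k.2.1 k.2.2
  rw [e1]
  calc ∑ F : X → Fin r, wt g F *
        ((S.filter fun t => (F t.1, F t.2.1, F t.2.2) ∈ Pat).card : ℝ) ≤
      ∑ F : X → Fin r, wt g F *
        ((S.filter fun t => (F₀ t.1, F₀ t.2.1, F₀ t.2.2) ∈ Pat).card : ℝ) :=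
        Finset.sum_le_sum fun F _ => mul_le_mul_of_nonneg_left (hF₀ F) (hw F)
    _ = _ := by rw [← Finset.sum_mul, hw1, one_mul]

end

end Pool.Agent.MP_0bef22_co
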