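import Mathlib
import Pool.Agent.MP_0bef22_co.Defs
import Pool.Agent.MP_0bef22_co.Random

open Finset

namespace Pool.Agent.MP_0bef22_co

section
variable {r : ℕ}

/-- number of solutions whose colour pattern lies in `Pat` -/
def cnt (a b c n : ℕ) (f : ℕ → Fin r) (Pat : Finset (Fin r × Fin r × Fin r)) : ℕ :=
  ((sols a b c n).filter fun t => (f t.1, f t.2.1, f t.2.2) ∈ Pat).card

lemma mem_sols {a b c n : ℕ} {t : ℕ × ℕ × ℕ} : t ∈ sols a b c n ↔
    (t.1 ∈ Icc 1 n ∧ t.2.1 ∈ Icc 1 n ∧ t.2.2 ∈ Icc 1 n) ∧ a * t.1 + b * t.2.1 = c * t.2.2 := by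
  unfold sols
  simp only [Finset.mem_filter, Finset.mem_product]

lemma sols_mono (a b c : ℕ) {n n' : ℕ} (h : n ≤ n') : sols a b c n ⊆ sols a b c n' := by
  intro t ht
  rw [mem_sols] at *
  have hs : Icc 1 n ⊆ Icc 1 n' := Finset.Icc_subset_Icc_right h
  exact ⟨⟨hs ht.1.1, hs ht.1.2.1, hs ht.1.2.2⟩, ht.2⟩

/-- solutions with a coordinate in a given set are few -/
lemma card_coord (a b c n : ℕ) (ha : 0 < a) (hb : 0 < b) (hc : 0 < c) (B : Finset ℕ) :
    ((sols a b c n).filter fun t => t.1 ∈ B ∨ t.2.1 ∈ B ∨ t.2.2 ∈ B).card ≤ 3 * (B.card * n) := by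
  classical
  have h1 : ((sols a b c n).filter fun t => t.1 ∈ B).card ≤ B.card * n := by
    have : (B ×ˢ Icc 1 n).card = B.card * n := by
      rw [Finset.card_product, Nat.card_Icc]; simp
    rw [← this]
    refine Finset.card_le_card_of_injOn (fun t => (t.1, t.2.1)) ?_ ?_
    · intro t ht
      rw [Finset.mem_coe, Finset.mem_filter, mem_sols] at ht
      rw [Finset.mem_coe, Finset.mem_product]
      exact ⟨ht.2, ht.1.1.2.1⟩
    · intro t ht t' ht' h
      rw [Finset.mem_coe, Finset.mem_filter, mem_sols] at ht ht'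
      simp only [Prod.mk.injEq] at h
      have e1 := ht.1.2
      have e2 := ht'.1.2
      rw [h.1, h.2, e2] at e1
      have e3 : t.2.2 = t'.2.2 := (Nat.eq_of_mul_eq_mul_left hc e1).symm
      exact Prod.ext h.1 (Prod.ext h.2 e3)
  have h2 : ((sols a b c n).filter fun t => t.2.1 ∈ B).card ≤ B.card * n := by
    have : (B ×ˢ Icc 1 n).card = B.card * n := by
      rw [Finset.card_product, Nat.card_Icc]; simp
    rw [← this]
    refine Finset.card_le_card_of_injOn (fun t => (t.2.1, t.1)) ?_ ?_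
    · intro t ht
      rw [Finset.mem_coe, Finset.mem_filter, mem_sols] at ht
      rw [Finset.mem_coe, Finset.mem_product]
      exact ⟨ht.2, ht.1.1.1⟩
    · intro t ht t' ht' h
      rw [Finset.mem_coe, Finset.mem_filter, mem_sols] at ht ht'
      simp only [Prod.mk.injEq] at h
      have e1 := ht.1.2
      have e2 := ht'.1.2
      rw [h.1, h.2, e2] at e1
      have e3 : t.2.2 = t'.2.2 := (Nat.eq_of_mul_eq_mul_left hc e1).symm
      exact Prod.ext h.2 (Prod.ext h.1 e3)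
  have h3 : ((sols a b c n).filter fun t => t.2.2 ∈ B).card ≤ B.card * n := by
    have : (B ×ˢ Icc 1 n).card = B.card * n := by
      rw [Finset.card_product, Nat.card_Icc]; simp
    rw [← this]
    refine Finset.card_le_card_of_injOn (fun t => (t.2.2, t.1)) ?_ ?_
    · intro t ht
      rw [Finset.mem_coe, Finset.mem_filter, mem_sols] at ht
      rw [Finset.mem_coe, Finset.mem_product]
      exact ⟨ht.2, ht.1.1.1⟩
    · intro t ht t' ht' h
      rw [Finset.mem_coe, Finset.mem_filter, mem_sols] at ht ht'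
      simp only [Prod.mk.injEq] at h
      have e1 := ht.1.2
      have e2 := ht'.1.2
      rw [h.1, h.2, ← e2] at e1
      have e3 : t.2.1 = t'.2.1 := Nat.eq_of_mul_eq_mul_left hb (Nat.add_left_cancel e1)
      exact Prod.ext h.2 (Prod.ext e3 h.1)
  have h4 : ((sols a b c n).filter fun t => t.1 ∈ B ∨ t.2.1 ∈ B ∨ t.2.2 ∈ B) ⊆
      ((sols a b c n).filter fun t => t.1 ∈ B) ∪ (((sols a b c n).filter fun t => t.2.1 ∈ B) ∪
        ((sols a b c n).filter fun t => t.2.2 ∈ B)) := by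
    intro t ht
    rw [Finset.mem_filter] at ht
    simp only [Finset.mem_union, Finset.mem_filter]
    tauto
  refine le_trans (Finset.card_le_card h4) (le_trans (Finset.card_union_le _ _) ?_)
  have h5 := Finset.card_union_le ((sols a b c n).filter fun t => t.2.1 ∈ B)
    ((sols a b c n).filter fun t => t.2.2 ∈ B)
  omega

/-- degenerate solutions are few -/
lemma card_degenerate (a b c n : ℕ) (ha : 0 < a) (hb : 0 < b) (hc : 0 < c) :
    ((sols a b c n).filter fun t => ¬ (t.1 ≠ t.2.1 ∧ t.2.1 ≠ t.2.2 ∧ t.1 ≠ t.2.2)).card ≤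
      3 * n := by
  classical
  have hI : (Icc 1 n).card = n := by rw [Nat.card_Icc]; simp
  have h1 : ((sols a b c n).filter fun t => t.1 = t.2.1).card ≤ n := by
    conv_rhs => rw [← hI]
    refine Finset.card_le_card_of_injOn (fun t => t.1) ?_ ?_
    · intro t ht
      rw [Finset.mem_coe, Finset.mem_filter, mem_sols] at ht
      exact ht.1.1.1
    · intro t ht t' ht' h
      rw [Finset.mem_coe, Finset.mem_filter, mem_sols] at ht ht'
      simp only at h
      have e1 := ht.1.2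
      have e2 := ht'.1.2
      have e4 : t.2.1 = t'.2.1 := by rw [← ht.2, ← ht'.2, h]
      rw [h, e4, e2] at e1
      have e3 : t.2.2 = t'.2.2 := (Nat.eq_of_mul_eq_mul_left hc e1).symm
      exact Prod.ext h (Prod.ext e4 e3)
  have h2 : ((sols a b c n).filter fun t => t.2.1 = t.2.2).card ≤ n := by
    conv_rhs => rw [← hI]
    refine Finset.card_le_card_of_injOn (fun t => t.2.1) ?_ ?_
    · intro t ht
      rw [Finset.mem_coe, Finset.mem_filter, mem_sols] at ht
      exact ht.1.1.2.1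
    · intro t ht t' ht' h
      rw [Finset.mem_coe, Finset.mem_filter, mem_sols] at ht ht'
      simp only at h
      have e1 := ht.1.2
      have e2 := ht'.1.2
      have e4 : t.2.2 = t'.2.2 := by rw [← ht.2, ← ht'.2, h]
      rw [h, e4, ← e2] at e1
      have e3 : t.1 = t'.1 := Nat.eq_of_mul_eq_mul_left ha (Nat.add_right_cancel e1)
      exact Prod.ext e3 (Prod.ext h e4)
  have h3 : ((sols a b c n).filter fun t => t.1 = t.2.2).card ≤ n := by
    conv_rhs => rw [← hI]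
    refine Finset.card_le_card_of_injOn (fun t => t.1) ?_ ?_
    · intro t ht
      rw [Finset.mem_coe, Finset.mem_filter, mem_sols] at ht
      exact ht.1.1.1
    · intro t ht t' ht' h
      rw [Finset.mem_coe, Finset.mem_filter, mem_sols] at ht ht'
      simp only at h
      have e1 := ht.1.2
      have e2 := ht'.1.2
      have e4 : t.2.2 = t'.2.2 := by rw [← ht.2, ← ht'.2, h]
      rw [h, e4, ← e2] at e1
      have e3 : t.2.1 = t'.2.1 := Nat.eq_of_mul_eq_mul_left hb (Nat.add_left_cancel e1)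
      exact Prod.ext h (Prod.ext e3 e4)
  have h4 : ((sols a b c n).filter fun t => ¬ (t.1 ≠ t.2.1 ∧ t.2.1 ≠ t.2.2 ∧ t.1 ≠ t.2.2)) ⊆
      ((sols a b c n).filter fun t => t.1 = t.2.1) ∪
        (((sols a b c n).filter fun t => t.2.1 = t.2.2) ∪
        ((sols a b c n).filter fun t => t.1 = t.2.2)) := by
    intro t ht
    rw [Finset.mem_filter] at ht
    simp only [Finset.mem_union, Finset.mem_filter]
    tauto
  refine le_trans (Finset.card_le_card h4) (le_trans (Finset.card_union_le _ _) ?_)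
  have h5 := Finset.card_union_le ((sols a b c n).filter fun t => t.2.1 = t.2.2)
    ((sols a b c n).filter fun t => t.1 = t.2.2)
  omega

/-- lower bound for the number of solutions -/
lemma sols_card_ge (a b c n : ℕ) (ha : 0 < a) (hb : 0 < b) (hc : 0 < c) :
    (n / (a + b + c)) ^ 2 ≤ (sols a b c n).card := by
  have h1 : (Icc 1 (n / (a + b + c)) ×ˢ Icc 1 (n / (a + b + c))).card =
      (n / (a + b + c)) ^ 2 := by
    rw [Finset.card_product, Nat.card_Icc]; simp [sq]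
  rw [← h1]
  refine Finset.card_le_card_of_injOn (fun t => (c * t.1, c * t.2, a * t.1 + b * t.2)) ?_ ?_
  · intro t ht
    rw [Finset.mem_coe, Finset.mem_product, Finset.mem_Icc, Finset.mem_Icc] at ht
    obtain ⟨⟨h1, h2⟩, h3, h4⟩ := ht
    have hn : (a + b + c) * (n / (a + b + c)) ≤ n := Nat.mul_div_le n (a + b + c)
    rw [Finset.mem_coe, mem_sols]
    simp only [Finset.mem_Icc]
    refine ⟨⟨⟨?_, ?_⟩, ⟨?_, ?_⟩, ⟨?_, ?_⟩⟩, by ring⟩
    · exact Nat.mul_pos hc h1
    · have : c * t.1 ≤ c * (n / (a + b + c)) := Nat.mul_le_mul_left _ h2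
      nlinarith
    · exact Nat.mul_pos hc h3
    · have : c * t.2 ≤ c * (n / (a + b + c)) := Nat.mul_le_mul_left _ h4
      nlinarith
    · have : 0 < a * t.1 := Nat.mul_pos ha h1
      omega
    · have e1 : a * t.1 ≤ a * (n / (a + b + c)) := Nat.mul_le_mul_left _ h2
      have e2 : b * t.2 ≤ b * (n / (a + b + c)) := Nat.mul_le_mul_left _ h4
      nlinarith
  · intro t _ t' _ h
    simp only [Prod.mk.injEq] at h
    exact Prod.ext (Nat.eq_of_mul_eq_mul_left hc h.1) (Nat.eq_of_mul_eq_mul_left hc h.2.1)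

/-- making a colouring surjective -/
lemma make_onto (a b c n : ℕ) (ha : 0 < a) (hb : 0 < b) (hc : 0 < c) (hrn : r ≤ n)
    (f : ℕ → Fin r) (Pat : Finset (Fin r × Fin r × Fin r)) :
    ∃ f' : ℕ → Fin r, (∀ i : Fin r, ∃ x ∈ Icc 1 n, f' x = i) ∧
      cnt a b c n f Pat ≤ cnt a b c n f' Pat + 3 * (r * n) := by
  classical
  let f' : ℕ → Fin r := fun x => if h : 1 ≤ x ∧ x ≤ r then ⟨x - 1, by omega⟩ else f x
  refine ⟨f', ?_, ?_⟩
  · intro i
    have hi := i.is_lt
    refine ⟨i.val + 1, Finset.mem_Icc.2 ⟨by omega, by omega⟩, ?_⟩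
    simp only [f']
    rw [dif_pos ⟨by omega, by omega⟩]
    apply Fin.ext
    simp
  · unfold cnt
    have hB := card_coord a b c n ha hb hc (Icc 1 r)
    have hI : (Icc 1 r).card = r := by rw [Nat.card_Icc]; simp
    rw [hI] at hB
    have hsub : ((sols a b c n).filter fun t => (f t.1, f t.2.1, f t.2.2) ∈ Pat) ⊆
        ((sols a b c n).filter fun t => (f' t.1, f' t.2.1, f' t.2.2) ∈ Pat) ∪
        ((sols a b c n).filter fun t => t.1 ∈ Icc 1 r ∨ t.2.1 ∈ Icc 1 r ∨ t.2.2 ∈ Icc 1 r) := by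
      intro t ht
      rw [Finset.mem_filter] at ht
      simp only [Finset.mem_union, Finset.mem_filter]
      by_cases h : t.1 ∈ Icc 1 r ∨ t.2.1 ∈ Icc 1 r ∨ t.2.2 ∈ Icc 1 r
      · right; exact ⟨ht.1, h⟩
      · left
        refine ⟨ht.1, ?_⟩
        rw [not_or, not_or] at h
        have e : ∀ x, x ∉ Icc 1 r → f' x = f x := by
          intro x hx
          simp only [f']
          rw [dif_neg (fun h => hx (Finset.mem_Icc.2 h))]
        rw [e _ h.1, e _ h.2.1, e _ h.2.2]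
        exact ht.2
    refine le_trans (Finset.card_le_card hsub) (le_trans (Finset.card_union_le _ _) ?_)
    omega

/-- from weights to a colouring -/
lemma weights_to_coloring (a b c N : ℕ) (ha : 0 < a) (hb : 0 < b) (hc : 0 < c) [NeZero r]
    (g : Fin r → ℕ → ℝ) (hg0 : ∀ i x, 0 ≤ g i x) (hg1 : ∀ x, ∑ i, g i x = 1)
    (Pat : Finset (Fin r × Fin r × Fin r)) :
    ∃ F : ℕ → Fin r, ∑ k ∈ Pat, ∑ t ∈ sols a b c N, g k.1 t.1 * g k.2.1 t.2.1 * g k.2.2 t.2.2 ≤
      (cnt a b c N F Pat : ℝ) + 3 * N := by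
  classical
  let ι : Fin (N + 1) × Fin (N + 1) × Fin (N + 1) → ℕ × ℕ × ℕ := fun t =>
    (t.1.val, t.2.1.val, t.2.2.val)
  have hι : Function.Injective ι := by
    intro t t' h
    simp only [ι, Prod.mk.injEq] at h
    exact Prod.ext (Fin.ext h.1) (Prod.ext (Fin.ext h.2.1) (Fin.ext h.2.2))
  let S : Finset (Fin (N + 1) × Fin (N + 1) × Fin (N + 1)) := Finset.univ.filter fun t =>
    ι t ∈ sols a b c N ∧ (t.1 ≠ t.2.1 ∧ t.2.1 ≠ t.2.2 ∧ t.1 ≠ t.2.2)
  have hS : ∀ t ∈ S, t.1 ≠ t.2.1 ∧ t.2.1 ≠ t.2.2 ∧ t.1 ≠ t.2.2 := fun t ht =>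
    (Finset.mem_filter.1 ht).2.2
  obtain ⟨F', hF'⟩ := derandomize (fun (x : Fin (N + 1)) i => g i x.val)
    (fun x i => hg0 i x.val) (fun x => hg1 x.val) ⟨fun _ => 0⟩ S hS Pat
  let F : ℕ → Fin r := fun m => if h : m < N + 1 then F' ⟨m, h⟩ else 0
  have hF : ∀ x : Fin (N + 1), F x.val = F' x := by
    intro x
    simp only [F]
    rw [dif_pos x.is_lt]
  refine ⟨F, ?_⟩
  -- nondegenerate solutions
  let nd : Finset (ℕ × ℕ × ℕ) := (sols a b c N).filter fun t =>
    t.1 ≠ t.2.1 ∧ t.2.1 ≠ t.2.2 ∧ t.1 ≠ t.2.2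
  have hnd : nd = S.image ι := by
    ext t
    simp only [nd, Finset.mem_filter, Finset.mem_image, S, Finset.mem_univ, true_and]
    constructor
    · rintro ⟨h1, h2⟩
      have h3 := mem_sols.1 h1
      simp only [Finset.mem_Icc] at h3
      obtain ⟨⟨⟨_, b1⟩, ⟨_, b2⟩, ⟨_, b3⟩⟩, _⟩ := h3
      refine ⟨(⟨t.1, by omega⟩, ⟨t.2.1, by omega⟩, ⟨t.2.2, by omega⟩), ⟨?_, ?_⟩, ?_⟩
      · exact h1
      · simp only [ne_eq, Fin.mk.injEq]
        exact h2
      · rfl
    · rintro ⟨u, ⟨h1, h2⟩, rfl⟩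
      refine ⟨h1, ?_⟩
      simp only [ι, ne_eq]
      refine ⟨fun h => h2.1 (Fin.ext h), fun h => h2.2.1 (Fin.ext h), fun h => h2.2.2 (Fin.ext h)⟩
  have hΦ : ∀ x y z : ℕ, ∑ k ∈ Pat, g k.1 x * g k.2.1 y * g k.2.2 z ≤ 1 := by
    intro x y z
    have h1 : ∑ k ∈ Pat, g k.1 x * g k.2.1 y * g k.2.2 z ≤
        ∑ k : Fin r × Fin r × Fin r, g k.1 x * g k.2.1 y * g k.2.2 z :=
      Finset.sum_le_sum_of_subset_of_nonneg (Finset.subset_univ _) fun k _ _ => by
        have := hg0 k.1 x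
        have := hg0 k.2.1 y
        have := hg0 k.2.2 z
        positivity
    refine le_trans h1 (le_of_eq ?_)
    rw [Fintype.sum_prod_type]
    simp only [Fintype.sum_prod_type]
    simp only [← Finset.mul_sum, hg1, mul_one]
  rw [Finset.sum_comm]
  have hsplit := Finset.sum_filter_add_sum_filter_not (sols a b c N)
    (fun t => t.1 ≠ t.2.1 ∧ t.2.1 ≠ t.2.2 ∧ t.1 ≠ t.2.2)
    (fun t => ∑ k ∈ Pat, g k.1 t.1 * g k.2.1 t.2.1 * g k.2.2 t.2.2)
  rw [← hsplit]
  have hA : ∑ t ∈ (sols a b c N).filter (fun t => t.1 ≠ t.2.1 ∧ t.2.1 ≠ t.2.2 ∧ t.1 ≠ t.2.2),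
      ∑ k ∈ Pat, g k.1 t.1 * g k.2.1 t.2.1 * g k.2.2 t.2.2 ≤ (cnt a b c N F Pat : ℝ) := by
    have e1 : ∑ t ∈ (sols a b c N).filter (fun t => t.1 ≠ t.2.1 ∧ t.2.1 ≠ t.2.2 ∧ t.1 ≠ t.2.2),
      ∑ k ∈ Pat, g k.1 t.1 * g k.2.1 t.2.1 * g k.2.2 t.2.2 =
      ∑ t ∈ S, ∑ k ∈ Pat, g k.1 t.1 * g k.2.1 t.2.1 * g k.2.2 t.2.2 := by
      show ∑ t ∈ nd, _ = _
      rw [hnd, Finset.sum_image (fun x _ y _ h => hι h)]
    rw [e1]
    refine le_trans hF' ?_
    unfold cnt
    have e2 : (S.filter fun t => (F' t.1, F' t.2.1, F' t.2.2) ∈ Pat).card ≤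
        ((sols a b c N).filter fun t => (F t.1, F t.2.1, F t.2.2) ∈ Pat).card := by
      refine Finset.card_le_card_of_injOn ι ?_ (fun x _ y _ h => hι h)
      intro t ht
      rw [Finset.mem_coe, Finset.mem_filter, Finset.mem_filter] at ht
      rw [Finset.mem_coe, Finset.mem_filter]
      refine ⟨ht.1.2.1, ?_⟩
      simp only [ι]
      rw [hF, hF, hF]
      exact ht.2
    exact_mod_cast e2
  have hB : ∑ t ∈ (sols a b c N).filter (fun t => ¬ (t.1 ≠ t.2.1 ∧ t.2.1 ≠ t.2.2 ∧ t.1 ≠ t.2.2)),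
      ∑ k ∈ Pat, g k.1 t.1 * g k.2.1 t.2.1 * g k.2.2 t.2.2 ≤ 3 * (N : ℝ) := by
    refine le_trans (Finset.sum_le_card_nsmul _ _ 1 fun t _ => hΦ _ _ _) ?_
    rw [nsmul_eq_mul, mul_one]
    exact_mod_cast card_degenerate a b c N ha hb hc
  linarith

end

end Pool.Agent.MP_0bef22_co
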