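import Mathlib
import Pool.Agent.MP_0bef22_co.Defs
import Pool.Agent.MP_0bef22_co.Core

open Finset

namespace Pool.Agent.MP_0bef22_co

section
variable {q : ℕ} [NeZero q]

/-- membership in the interval `[n]` -/
def InI (n : ℕ) (u : ZMod q) : Prop := 1 ≤ u.val ∧ u.val ≤ n

instance (n : ℕ) (u : ZMod q) : Decidable (InI n u) := by unfold InI; infer_instance

/-- lift of a function on `[n]` to `ZMod q` -/
noncomputable def lift (n : ℕ) (F : ℕ → ℝ) (u : ZMod q) : ℝ := if InI n u then F u.val else 0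

omit [NeZero q] in
lemma lift_cast (n : ℕ) (hn : n < q) (F : ℕ → ℝ) {m : ℕ} (hm : m ∈ Icc 1 n) :
    lift n F (m : ZMod q) = F m := by
  rw [Finset.mem_Icc] at hm
  have hv : ((m : ℕ) : ZMod q).val = m := ZMod.val_natCast_of_lt (by omega)
  have hI : InI n (m : ZMod q) := by unfold InI; rw [hv]; exact hm
  unfold lift
  rw [if_pos hI, hv]

lemma sum_lift (n : ℕ) (hn : n < q) (F : ℕ → ℝ) (Φ : ZMod q → ℂ) :
    ∑ x : ZMod q, ((lift n F x : ℝ) : ℂ) * Φ x = ∑ m ∈ Icc 1 n, ((F m : ℝ) : ℂ) * Φ (m : ZMod q) := by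
  classical
  have hval : ∀ m ∈ Icc 1 n, ((m : ℕ) : ZMod q).val = m := by
    intro m hm
    rw [Finset.mem_Icc] at hm
    exact ZMod.val_natCast_of_lt (by omega)
  have hinj : Set.InjOn (fun m : ℕ => (m : ZMod q)) (Icc 1 n : Finset ℕ) := by
    intro x hx y hy hxy
    have h1 := hval x hx
    have h2 := hval y hy
    simp only at hxy
    rw [← h1, ← h2, hxy]
  rw [← Finset.sum_subset (Finset.subset_univ ((Icc 1 n).image fun m : ℕ => (m : ZMod q)))]
  · rw [Finset.sum_image hinj]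
    refine Finset.sum_congr rfl fun m hm => ?_
    rw [lift_cast n hn F hm]
  · intro x _ hx
    unfold lift
    rw [if_neg]
    · simp
    · intro h
      apply hx
      rw [Finset.mem_image]
      exact ⟨x.val, Finset.mem_Icc.2 h, ZMod.natCast_zmod_val x⟩

/-- the trilinear form counts solutions -/
lemma TT_lift (a b c n : ℕ) (hn : (a + b + c) * n < q) (hc : 0 < c) (hqc : q.Coprime c)
    (F G H : ℕ → ℝ) :
    TT ((a : ZMod q) * (c : ZMod q)⁻¹) ((b : ZMod q) * (c : ZMod q)⁻¹)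
      (fun x => ((lift n F x : ℝ) : ℂ)) (fun x => ((lift n G x : ℝ) : ℂ))
      (fun x => ((lift n H x : ℝ) : ℂ)) =
    ((∑ t ∈ sols a b c n, F t.1 * G t.2.1 * H t.2.2 : ℝ) : ℂ) := by
  classical
  have hnq : n < q := by nlinarith
  have hinv := ZMod.coe_mul_inv_eq_one c hqc.symm
  unfold TT
  have h1 : ∀ x : ZMod q, ∑ y : ZMod q, ((lift n F x : ℝ) : ℂ) * ((lift n G y : ℝ) : ℂ) *
      ((lift n H ((a : ZMod q) * (c : ZMod q)⁻¹ * x + (b : ZMod q) * (c : ZMod q)⁻¹ * y) : ℝ) : ℂ) =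
      ((lift n F x : ℝ) : ℂ) * ∑ m ∈ Icc 1 n, ((G m : ℝ) : ℂ) *
      ((lift n H ((a : ZMod q) * (c : ZMod q)⁻¹ * x +
        (b : ZMod q) * (c : ZMod q)⁻¹ * (m : ZMod q)) : ℝ) : ℂ) := by
    intro x
    rw [← sum_lift n hnq G (fun y => ((lift n H ((a : ZMod q) * (c : ZMod q)⁻¹ * x +
        (b : ZMod q) * (c : ZMod q)⁻¹ * y) : ℝ) : ℂ)), Finset.mul_sum]
    exact Finset.sum_congr rfl fun y _ => by ring
  simp only [h1]
  rw [sum_lift n hnq F]
  push_cast
  unfold sols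
  rw [Finset.sum_filter, Finset.sum_product]
  refine Finset.sum_congr rfl fun x hx => ?_
  rw [Finset.sum_product, Finset.mul_sum]
  refine Finset.sum_congr rfl fun y hy => ?_
  simp only
  rw [Finset.mem_Icc] at hx hy
  -- the value of `z`
  have key : ∀ z ∈ Icc 1 n, (a * x + b * y = c * z ↔ (z : ZMod q) =
      (a : ZMod q) * (c : ZMod q)⁻¹ * x + (b : ZMod q) * (c : ZMod q)⁻¹ * (y : ZMod q)) := by
    intro z hz
    rw [Finset.mem_Icc] at hz
    constructor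
    · intro h
      have h2 : ((a * x + b * y : ℕ) : ZMod q) = ((c * z : ℕ) : ZMod q) := by rw [h]
      push_cast at h2
      calc (z : ZMod q) = ((c : ZMod q) * (c : ZMod q)⁻¹) * z := by rw [hinv, one_mul]
        _ = (c : ZMod q)⁻¹ * ((c : ZMod q) * z) := by ring
        _ = (c : ZMod q)⁻¹ * ((a : ZMod q) * x + (b : ZMod q) * y) := by rw [h2]
        _ = _ := by ring
    · intro h
      have h2 : ((c * z : ℕ) : ZMod q) = ((a * x + b * y : ℕ) : ZMod q) := by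
        push_cast
        rw [h]
        calc (c : ZMod q) * ((a : ZMod q) * (c : ZMod q)⁻¹ * x +
              (b : ZMod q) * (c : ZMod q)⁻¹ * (y : ZMod q)) =
            ((c : ZMod q) * (c : ZMod q)⁻¹) * ((a : ZMod q) * x + (b : ZMod q) * y) := by ring
          _ = _ := by rw [hinv, one_mul]
      rw [ZMod.natCast_eq_natCast_iff] at h2
      have l1 : c * z < q := by nlinarith
      have l2 : a * x + b * y < q := by nlinarith
      exact (Nat.ModEq.eq_of_lt_of_lt h2 l1 l2).symm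
  rw [← Finset.sum_filter]
  by_cases hex : ∃ z ∈ Icc 1 n, a * x + b * y = c * z
  · obtain ⟨z, hz, hxyz⟩ := hex
    have h2 : (Icc 1 n).filter (fun z => a * x + b * y = c * z) = {z} := by
      ext w
      rw [Finset.mem_filter, Finset.mem_singleton]
      constructor
      · rintro ⟨_, hw⟩
        exact Nat.eq_of_mul_eq_mul_left hc (hw.symm.trans hxyz)
      · rintro rfl
        exact ⟨hz, hxyz⟩
    rw [h2, Finset.sum_singleton, ← (key z hz).1 hxyz, lift_cast n hnq H hz]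
    ring
  · have h2 : (Icc 1 n).filter (fun z => a * x + b * y = c * z) = ∅ := by
      rw [Finset.filter_eq_empty_iff]
      intro z hz h
      exact hex ⟨z, hz, h⟩
    rw [h2, Finset.sum_empty]
    have h3 : lift n H ((a : ZMod q) * (c : ZMod q)⁻¹ * (x : ZMod q) +
        (b : ZMod q) * (c : ZMod q)⁻¹ * (y : ZMod q)) = 0 := by
      unfold lift
      rw [if_neg]
      intro h
      apply hex
      refine ⟨_, Finset.mem_Icc.2 h, ?_⟩
      rw [key _ (Finset.mem_Icc.2 h), ZMod.natCast_zmod_val]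
    rw [h3]
    simp

/-- `L¹` bounds for the trilinear form -/
lemma TT_L1 (α β : ZMod q) (hβ : IsUnit β) (f₁ f₂ f₃ g₁ g₂ g₃ : ZMod q → ℂ)
    (hf₂ : ∀ u, ‖f₂ u‖ ≤ 1) (hf₃ : ∀ u, ‖f₃ u‖ ≤ 1)
    (hg₁ : ∀ u, ‖g₁ u‖ ≤ 1) (hg₂ : ∀ u, ‖g₂ u‖ ≤ 1) (E : ZMod q → ℝ)
    (h₁ : ∀ u, ‖f₁ u - g₁ u‖ ≤ E u) (h₂ : ∀ u, ‖f₂ u - g₂ u‖ ≤ E u)
    (h₃ : ∀ u, ‖f₃ u - g₃ u‖ ≤ E u) :
    ‖TT α β f₁ f₂ f₃ - TT α β g₁ g₂ g₃‖ ≤ 3 * (q * ∑ u, E u) := by
  have hE : ∀ u, 0 ≤ E u := fun u => le_trans (norm_nonneg _) (h₁ u)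
  have hd : TT α β f₁ f₂ f₃ - TT α β g₁ g₂ g₃ = ∑ x, ∑ y,
      ((f₁ x - g₁ x) * f₂ y * f₃ (α * x + β * y) + g₁ x * (f₂ y - g₂ y) * f₃ (α * x + β * y) +
        g₁ x * g₂ y * (f₃ (α * x + β * y) - g₃ (α * x + β * y))) := by
    unfold TT
    rw [← Finset.sum_sub_distrib]
    refine Finset.sum_congr rfl fun x _ => ?_
    rw [← Finset.sum_sub_distrib]
    refine Finset.sum_congr rfl fun y _ => ?_
    ring
  rw [hd]
  have hb : ‖∑ x, ∑ y, ((f₁ x - g₁ x) * f₂ y * f₃ (α * x + β * y) +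
      g₁ x * (f₂ y - g₂ y) * f₃ (α * x + β * y) +
        g₁ x * g₂ y * (f₃ (α * x + β * y) - g₃ (α * x + β * y)))‖ ≤
      ∑ x, ∑ y, (E x + E y + E (α * x + β * y)) := by
    refine le_trans (norm_sum_le _ _) (Finset.sum_le_sum fun x _ => ?_)
    refine le_trans (norm_sum_le _ _) (Finset.sum_le_sum fun y _ => ?_)
    refine le_trans (norm_add_le _ _) (add_le_add (le_trans (norm_add_le _ _)
      (add_le_add ?_ ?_)) ?_)
    · rw [norm_mul, norm_mul]
      have a1 := h₁ x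
      have a2 := hf₂ y
      have a3 := hf₃ (α * x + β * y)
      have b1 := norm_nonneg (f₁ x - g₁ x)
      have b2 := norm_nonneg (f₂ y)
      have b3 := norm_nonneg (f₃ (α * x + β * y))
      calc ‖f₁ x - g₁ x‖ * ‖f₂ y‖ * ‖f₃ (α * x + β * y)‖ ≤ ‖f₁ x - g₁ x‖ * 1 * 1 := by
            gcongr
        _ ≤ E x := by linarith
    · rw [norm_mul, norm_mul]
      have a1 := h₂ y
      have a2 := hg₁ x
      have a3 := hf₃ (α * x + β * y)
      calc ‖g₁ x‖ * ‖f₂ y - g₂ y‖ * ‖f₃ (α * x + β * y)‖ ≤ 1 * ‖f₂ y - g₂ y‖ * 1 := by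
            gcongr
        _ ≤ E y := by linarith
    · rw [norm_mul, norm_mul]
      have a1 := h₃ (α * x + β * y)
      have a2 := hg₁ x
      have a3 := hg₂ y
      calc ‖g₁ x‖ * ‖g₂ y‖ * ‖f₃ (α * x + β * y) - g₃ (α * x + β * y)‖ ≤
          1 * 1 * ‖f₃ (α * x + β * y) - g₃ (α * x + β * y)‖ := by
            gcongr
        _ ≤ E (α * x + β * y) := by linarith
  refine le_trans hb (le_of_eq ?_)
  have hshift : ∀ x : ZMod q, ∑ y, E (α * x + β * y) = ∑ z, E z := by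
    intro x
    obtain ⟨v, rfl⟩ := hβ
    refine Fintype.sum_bijective (fun y => α * x + (v : ZMod q) * y) ?_ _ _ fun _ => rfl
    constructor
    · intro y z hyz
      exact v.isUnit.mul_left_cancel (add_left_cancel hyz)
    · intro z
      refine ⟨(v⁻¹ : (ZMod q)ˣ) * (z - α * x), ?_⟩
      simp
  simp only [Finset.sum_add_distrib, hshift]
  simp only [Finset.sum_const, Finset.card_univ, ZMod.card, nsmul_eq_mul]
  rw [← Finset.mul_sum]
  ring

end

end Pool.Agent.MP_0bef22_co
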