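import Mathlib
import Pool.Agent.MP_0bef22_co.Interval

open Finset

namespace Pool.Agent.MP_0bef22_co

lemma cos_bound (δ t : ℝ) (hδ : 0 < δ) (h1 : δ ≤ |t|) (h2 : |t| ≤ 1 - δ) :
    Real.cos (2 * Real.pi * t) ≤ 1 - 8 * δ ^ 2 := by
  have hpi := Real.pi_pos
  have key : ∀ s : ℝ, δ ≤ s → s ≤ 1 / 2 → Real.cos (2 * Real.pi * s) ≤ 1 - 8 * δ ^ 2 := by
    intro s hs1 hs2
    have h3 := Real.cos_le_one_sub_mul_cos_sq (x := 2 * Real.pi * s) (by
      rw [abs_of_nonneg (mul_nonneg (by positivity) (by linarith))]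
      nlinarith)
    have h4 : 2 / Real.pi ^ 2 * (2 * Real.pi * s) ^ 2 = 8 * s ^ 2 := by
      field_simp; ring
    rw [h4] at h3
    nlinarith
  have h3 : Real.cos (2 * Real.pi * t) = Real.cos (2 * Real.pi * |t|) := by
    rw [← Real.cos_abs (2 * Real.pi * t), abs_mul, abs_of_nonneg (show (0 : ℝ) ≤ 2 * Real.pi by
      positivity)]
  rw [h3]
  by_cases h : |t| ≤ 1 / 2
  · exact key _ h1 h
  · rw [not_le] at h
    have h4 : Real.cos (2 * Real.pi * |t|) = Real.cos (2 * Real.pi * (1 - |t|)) := by
      rw [show 2 * Real.pi * (1 - |t|) = 2 * Real.pi - 2 * Real.pi * |t| by ring,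
        Real.cos_two_pi_sub]
    rw [h4]
    exact key _ (by linarith) (by linarith)

section
variable {p P : ℕ} [NeZero p] [NeZero P]

lemma norm_sq_local (x : ZMod P) (u : ZMod p) : ‖1 - e u * e (-x)‖ ^ 2 =
    2 - 2 * Real.cos (2 * Real.pi * ((u.val : ℝ) / p - (x.val : ℝ) / P)) := by
  have h1 : e u = Complex.exp (2 * Real.pi * Complex.I * (u.val : ℤ) / p) := by
    unfold e
    rw [← ZMod.stdAddChar_coe]
    congr 1
    simp
  have h2 : e (-x) = Complex.exp (2 * Real.pi * Complex.I * ((-(x.val : ℤ) : ℤ) : ℂ) / P) := by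
    unfold e
    rw [← ZMod.stdAddChar_coe]
    congr 1
    simp
  have h3 : e u * e (-x) = Complex.exp (((2 * Real.pi * ((u.val : ℝ) / p - (x.val : ℝ) / P) : ℝ) :
      ℂ) * Complex.I) := by
    rw [h1, h2, ← Complex.exp_add]
    congr 1
    push_cast
    ring
  rw [h3, Complex.sq_norm, Complex.normSq_apply, Complex.sub_re, Complex.sub_im,
    Complex.exp_ofReal_mul_I_re, Complex.exp_ofReal_mul_I_im, Complex.one_re, Complex.one_im]
  have h4 := Real.sin_sq_add_cos_sq (2 * Real.pi * ((u.val : ℝ) / p - (x.val : ℝ) / P))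
  nlinarith

/-- mass of the kernel on the wrong side of the interval -/
noncomputable def Err (n N : ℕ) (w : ZMod P → ZMod p → ℝ) (x : ZMod P) : ℝ :=
  ∑ u : ZMod p, w x u * (if (InI N x ↔ InI n u) then 0 else 1)

omit [NeZero P] in
lemma Err_le_one (n N : ℕ) (w : ZMod P → ZMod p → ℝ) (h0 : ∀ x u, 0 ≤ w x u)
    (h1 : ∀ x, ∑ u, w x u = 1) (x : ZMod P) : Err n N w x ≤ 1 := by
  rw [← h1 x]
  unfold Err
  refine Finset.sum_le_sum fun u _ => ?_
  have := h0 x u
  split_ifs <;> nlinarith

omit [NeZero P] in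
lemma Err_nonneg (n N : ℕ) (w : ZMod P → ZMod p → ℝ) (h0 : ∀ x u, 0 ≤ w x u)
    (x : ZMod P) : 0 ≤ Err n N w x := by
  refine Finset.sum_nonneg fun u _ => ?_
  have := h0 x u
  split_ifs <;> nlinarith

/-- good points: the error is small -/
lemma Err_good (n N D : ℕ) (w : ZMod P → ZMod p → ℝ) (h0 : ∀ x u, 0 ≤ w x u) (η δ : ℝ)
    (hδ : 0 < δ) (hloc : ∀ x, ∑ u, w x u * ‖1 - e u * e (-x)‖ ^ 2 ≤ 2 * η)
    (hratio : (n : ℝ) / p = (N : ℝ) / P) (hD : δ * P ≤ D) (x : ZMod P)
    (hx1 : D ≤ x.val) (hx2 : x.val + D ≤ P) (hx3 : x.val + D ≤ N ∨ N + D ≤ x.val) :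
    Err n N w x ≤ η / (8 * δ ^ 2) := by
  have hp := p_pos (p := p)
  have hP := p_pos (p := P)
  have hDpos : 0 < D := by
    have : (0 : ℝ) < D := lt_of_lt_of_le (by positivity) hD
    exact_mod_cast this
  have hDP : δ ≤ (D : ℝ) / P := by rw [le_div_iff₀ hP]; exact hD
  have hx1' : (D : ℝ) ≤ x.val := by exact_mod_cast hx1
  have hx2' : (x.val : ℝ) + D ≤ P := by exact_mod_cast hx2
  have key : ∀ u : ZMod p, ¬ (InI N x ↔ InI n u) → 16 * δ ^ 2 ≤ ‖1 - e u * e (-x)‖ ^ 2 := by
    intro u hu
    rw [norm_sq_local]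
    have hup : (u.val : ℝ) < p := by exact_mod_cast ZMod.val_lt u
    have hup0 : (0 : ℝ) ≤ u.val := by positivity
    have hup1 : (u.val : ℝ) / p < 1 := by rw [div_lt_one hp]; exact hup
    have hup2 : 0 ≤ (u.val : ℝ) / p := by positivity
    have hxP1 : (D : ℝ) / P ≤ (x.val : ℝ) / P := by gcongr
    have hxP2 : (x.val : ℝ) / P ≤ 1 - (D : ℝ) / P := by
      rw [le_sub_iff_add_le, ← add_div, div_le_one hP]
      exact hx2'
    have hmain : δ ≤ |(u.val : ℝ) / p - (x.val : ℝ) / P| ∧
        |(u.val : ℝ) / p - (x.val : ℝ) / P| ≤ 1 - δ := by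
      constructor
      · by_cases hx : InI N x
        · have hu' : ¬ InI n u := fun h => hu ⟨fun _ => h, fun _ => hx⟩
          have hx3' : x.val + D ≤ N := by
            rcases hx3 with h | h
            · exact h
            · have := hx.2; omega
          have hx3'' : (x.val : ℝ) / P ≤ (N : ℝ) / P - (D : ℝ) / P := by
            rw [← sub_div]
            gcongr
            have : (x.val : ℝ) + D ≤ N := by exact_mod_cast hx3'
            linarith
          unfold InI at hu'
          by_cases hu0 : u.val = 0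
          · rw [hu0]
            simp only [Nat.cast_zero, zero_div, zero_sub, abs_neg]
            rw [abs_of_nonneg (by positivity)]
            linarith
          · have hun : n ≤ u.val := by omega
            have : (n : ℝ) / p ≤ (u.val : ℝ) / p := by gcongr
            rw [abs_of_nonneg (by linarith)]
            linarith
        · have hu' : InI n u := by
            by_contra h
            exact hu ⟨fun h' => absurd h' hx, fun h' => absurd h' h⟩
          have hx3' : N + D ≤ x.val := by
            rcases hx3 with h | h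
            · exfalso
              apply hx
              exact ⟨by omega, by omega⟩
            · exact h
          have hx3'' : (N : ℝ) / P + (D : ℝ) / P ≤ (x.val : ℝ) / P := by
            rw [← add_div]
            gcongr
            exact_mod_cast hx3'
          have : (u.val : ℝ) / p ≤ (n : ℝ) / p := by
            gcongr
            exact hu'.2
          rw [abs_of_nonpos (by linarith)]
          linarith
      · rw [abs_le]
        constructor <;> linarith
    have := cos_bound δ _ hδ hmain.1 hmain.2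
    linarith
  have h1 : Err n N w x * (16 * δ ^ 2) ≤ 2 * η := by
    refine le_trans ?_ (hloc x)
    unfold Err
    rw [Finset.sum_mul]
    refine Finset.sum_le_sum fun u _ => ?_
    by_cases h : (InI N x ↔ InI n u)
    · rw [if_pos h]
      have := h0 x u
      simp only [mul_zero, zero_mul]
      positivity
    · rw [if_neg h, mul_one]
      exact mul_le_mul_of_nonneg_left (key u h) (h0 x u)
  rw [le_div_iff₀ (by positivity)]
  linarith

/-- the total error -/
lemma sum_Err (n N D : ℕ) (w : ZMod P → ZMod p → ℝ) (h0 : ∀ x u, 0 ≤ w x u)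
    (h1 : ∀ x, ∑ u, w x u = 1) (η δ : ℝ) (hη : 0 < η)
    (hδ : 0 < δ) (hloc : ∀ x, ∑ u, w x u * ‖1 - e u * e (-x)‖ ^ 2 ≤ 2 * η)
    (hratio : (n : ℝ) / p = (N : ℝ) / P) (hD : δ * P ≤ D) :
    ∑ x, Err n N w x ≤ 4 * D + P * (η / (8 * δ ^ 2)) := by
  classical
  let bad : Finset (ZMod P) := Finset.univ.filter fun x =>
    ¬ (D ≤ x.val ∧ x.val + D ≤ P ∧ (x.val + D ≤ N ∨ N + D ≤ x.val))
  have hbad : bad.card ≤ 4 * D := by
    have hsub : (bad.image fun x => x.val) ⊆
        (Finset.range D) ∪ (Finset.Ico (P - D + 1) P) ∪ (Finset.Ico (N - D + 1) (N + D)) := by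
      intro m hm
      rw [Finset.mem_image] at hm
      obtain ⟨x, hx, rfl⟩ := hm
      have hx' := (Finset.mem_filter.1 hx).2
      have hlt := ZMod.val_lt x
      simp only [Finset.mem_union, Finset.mem_range, Finset.mem_Ico]
      by_cases c1 : D ≤ x.val
      · by_cases c2 : x.val + D ≤ P
        · right
          have c3 : ¬ (x.val + D ≤ N ∨ N + D ≤ x.val) := fun h => hx' ⟨c1, c2, h⟩
          omega
        · left; right; omega
      · left; left; omega
    have h2 : (bad.image fun x => x.val).card = bad.card :=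
      Finset.card_image_of_injective _ (ZMod.val_injective P)
    rw [← h2]
    refine le_trans (Finset.card_le_card hsub) ?_
    refine le_trans (Finset.card_union_le _ _) ?_
    have h3 := Finset.card_union_le (Finset.range D) (Finset.Ico (P - D + 1) P)
    rw [Finset.card_range, Nat.card_Ico] at h3
    rw [Nat.card_Ico]
    omega
  have hpos : 0 ≤ η / (8 * δ ^ 2) := by positivity
  calc ∑ x, Err n N w x ≤ ∑ x : ZMod P, ((if x ∈ bad then 1 else 0) + η / (8 * δ ^ 2)) := by
        refine Finset.sum_le_sum fun x _ => ?_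
        by_cases hx : x ∈ bad
        · rw [if_pos hx]
          have := Err_le_one n N w h0 h1 x
          linarith
        · rw [if_neg hx, zero_add]
          have hx' : (D ≤ x.val ∧ x.val + D ≤ P ∧ (x.val + D ≤ N ∨ N + D ≤ x.val)) := by
            by_contra hcon
            exact hx (Finset.mem_filter.2 ⟨Finset.mem_univ _, hcon⟩)
          exact Err_good n N D w h0 η δ hδ hloc hratio hD x hx'.1 hx'.2.1 hx'.2.2
    _ = bad.card + P * (η / (8 * δ ^ 2)) := by
        rw [Finset.sum_add_distrib, Finset.sum_const, Finset.card_univ, ZMod.card, nsmul_eq_mul,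
          Finset.sum_ite_mem, Finset.univ_inter, Finset.sum_const, nsmul_eq_mul, mul_one]
    _ ≤ 4 * D + P * (η / (8 * δ ^ 2)) := by
        have : (bad.card : ℝ) ≤ 4 * D := by exact_mod_cast hbad
        linarith

end

end Pool.Agent.MP_0bef22_co
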