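import Mathlib
import Pool.Agent.MP_0bef22_co.Local

open Finset

namespace Pool.Agent.MP_0bef22_co

/-- the modulus used for `[n]` -/
def pp (a b c n : ℕ) : ℕ := a * b * c * (a + b + c) * n + 1

lemma pp_pos (a b c n : ℕ) : 0 < pp a b c n := Nat.succ_pos _

lemma pp_coprime (a b c n : ℕ) : (pp a b c n).Coprime a ∧ (pp a b c n).Coprime b ∧
    (pp a b c n).Coprime c := by
  unfold pp
  refine ⟨?_, ?_, ?_⟩
  · rw [show a * b * c * (a + b + c) * n + 1 = 1 + a * (b * c * (a + b + c) * n) by ring]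
    simp
  · rw [show a * b * c * (a + b + c) * n + 1 = 1 + b * (a * c * (a + b + c) * n) by ring]
    simp
  · rw [show a * b * c * (a + b + c) * n + 1 = 1 + c * (a * b * (a + b + c) * n) by ring]
    simp

lemma lt_pp (a b c n : ℕ) (ha : 0 < a) (hb : 0 < b) (hc : 0 < c) :
    (a + b + c) * n < pp a b c n := by
  unfold pp
  have h1 : 1 ≤ a * b * c := Nat.mul_pos (Nat.mul_pos ha hb) hc
  have h2 : 1 * ((a + b + c) * n) ≤ a * b * c * ((a + b + c) * n) := Nat.mul_le_mul_right _ h1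
  have h3 : a * b * c * (a + b + c) * n = a * b * c * ((a + b + c) * n) := by ring
  omega

theorem interval_transfer (a b c r : ℕ) (ha : 0 < a) (hb : 0 < b) (hc : 0 < c) [NeZero r]
    (κ : ℝ) (hκ : 0 < κ) : ∃ n₀ : ℕ, ∀ n ≥ n₀, ∀ f : ℕ → Fin r, ∃ Q : ℕ, 0 < Q ∧ ∃ l₀ : ℕ,
    ∀ l ≥ l₀, ∃ g : Fin r → ℕ → ℝ, (∀ i x, 0 ≤ g i x) ∧ (∀ x, ∑ i, g i x = 1) ∧
      ∀ i j k : Fin r,
        |(∑ t ∈ sols a b c (n * (1 + Q * l)), g i t.1 * g j t.2.1 * g k t.2.2) /
            ((pp a b c n * (1 + Q * l) : ℕ) : ℝ) ^ 2 -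
          (∑ t ∈ sols a b c n, (if f t.1 = i then (1 : ℝ) else 0) *
            (if f t.2.1 = j then 1 else 0) * (if f t.2.2 = k then 1 else 0)) /
            ((pp a b c n : ℕ) : ℝ) ^ 2| ≤ κ := by
  classical
  let κ₁ : ℝ := κ / 6
  have hκ₁ : 0 < κ₁ := by positivity
  let δ : ℝ := κ₁ / 8
  have hδ : 0 < δ := by positivity
  let η : ℝ := 2 * δ ^ 2 * κ₁
  have hη : 0 < η := by positivity
  obtain ⟨p₀, hp₀⟩ := transfer_core a b c r ha hb hc κ₁ η hκ₁ hη
  refine ⟨p₀, fun n hn f => ?_⟩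
  have hnlt := lt_pp a b c n ha hb hc
  set p := pp a b c n with hp_def
  have hnp : n < p := by
    have : n ≤ (a + b + c) * n := Nat.le_mul_of_pos_left n (by omega)
    omega
  have : NeZero p := ⟨(pp_pos a b c n).ne'⟩
  obtain ⟨hpa, hpb, hpc⟩ := pp_coprime a b c n
  let fc : Fin r → ZMod p → ℝ := fun i => lift n (fun x => if f x = i then 1 else 0)
  have hfc : ∀ i u, 0 ≤ fc i u ∧ fc i u ≤ 1 := by
    intro i u
    simp only [fc, lift]
    split_ifs <;> norm_num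
  have hfsum : ∀ u : ZMod p, ∑ i, fc i u = if InI n u then 1 else 0 := by
    intro u
    simp only [fc, lift]
    split_ifs with h
    · simp
    · simp
  obtain ⟨Q, hQ, hl⟩ := hp₀ p (by omega) hpa hpb hpc fc hfc
  refine ⟨Q, hQ, ⌈16 / κ₁⌉₊, fun l hll => ?_⟩
  set P := p * (1 + Q * l) with hP_def
  have hPpos : 0 < P := Nat.mul_pos (pp_pos a b c n) (by omega)
  have : NeZero P := ⟨hPpos.ne'⟩
  obtain ⟨hPa, hPb, hPc, w, hw0, hw1, hwloc, hwT⟩ := hl l P rfl
  set N := n * (1 + Q * l) with hN_def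
  have hNP : (a + b + c) * N < P := by
    rw [hN_def, hP_def, ← mul_assoc]
    exact Nat.mul_lt_mul_of_pos_right hnlt (by omega)
  have hratio : (n : ℝ) / p = (N : ℝ) / P := by
    rw [hN_def, hP_def]
    push_cast
    have h1 : (0 : ℝ) < p := p_pos
    have h2 : (0 : ℝ) < 1 + (Q : ℝ) * l := by positivity
    field_simp
  have hPr : (0 : ℝ) < P := p_pos
  have hP16 : 16 / κ₁ ≤ P := by
    refine le_trans (Nat.le_ceil _) ?_
    have h1 : l ≤ P := by
      rw [hP_def]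
      have h2 : l ≤ Q * l := Nat.le_mul_of_pos_left l hQ
      have h3 : 1 + Q * l ≤ p * (1 + Q * l) := Nat.le_mul_of_pos_left _ (pp_pos a b c n)
      omega
    exact_mod_cast le_trans hll h1
  -- the weights on `[N]`
  let F : Fin r → ZMod P → ℝ := fun i x => ∑ u, w x u * fc i u
  let g : Fin r → ℕ → ℝ := fun i m => if m ∈ Icc 1 N then
    F i (m : ZMod P) + (if i = 0 then ∑ u, w (m : ZMod P) u * (if InI n u then 0 else 1) else 0)
    else (if i = 0 then 1 else 0)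
  have hF0 : ∀ i x, 0 ≤ F i x := fun i x =>
    Finset.sum_nonneg fun u _ => mul_nonneg (hw0 x u) (hfc i u).1
  have hF1 : ∀ i x, F i x ≤ 1 := by
    intro i x
    rw [← hw1 x]
    refine Finset.sum_le_sum fun u _ => ?_
    have := hw0 x u
    have := (hfc i u).2
    nlinarith
  have hout : ∀ x : ZMod P, 0 ≤ ∑ u, w x u * (if InI n u then (0 : ℝ) else 1) := by
    intro x
    refine Finset.sum_nonneg fun u _ => mul_nonneg (hw0 x u) ?_
    split_ifs <;> norm_num
  have hg0 : ∀ i m, 0 ≤ g i m := by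
    intro i m
    simp only [g]
    have h1 := hF0 i (m : ZMod P)
    have h2 := hout (m : ZMod P)
    split_ifs <;> linarith
  have hg1 : ∀ m, ∑ i, g i m = 1 := by
    intro m
    simp only [g]
    by_cases hm : m ∈ Icc 1 N
    · simp only [hm, if_true]
      rw [Finset.sum_add_distrib, Finset.sum_ite_eq']
      simp only [mem_univ, if_true, F]
      rw [Finset.sum_comm]
      simp only [← Finset.mul_sum, hfsum]
      rw [← Finset.sum_add_distrib]
      refine Eq.trans ?_ (hw1 (m : ZMod P))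
      refine Finset.sum_congr rfl fun u _ => ?_
      split_ifs <;> ring
    · simp only [hm, if_false]
      simp
  have hg_le : ∀ i m, g i m ≤ 1 := by
    intro i m
    rw [← hg1 m]
    exact Finset.single_le_sum (f := fun i => g i m) (fun j _ => hg0 j m) (Finset.mem_univ i)
  refine ⟨g, hg0, hg1, fun i j k => ?_⟩
  -- comparison of `F` and `g`
  have hcmp : ∀ i (x : ZMod P), ‖((lift N (g i) x : ℝ) : ℂ) - ((F i x : ℝ) : ℂ)‖ ≤
      Err n N w x := by
    intro i x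
    rw [← Complex.ofReal_sub, Complex.norm_real, Real.norm_eq_abs]
    by_cases hx : InI N x
    · have h1 : lift N (g i) x = F i x +
          (if i = 0 then ∑ u, w x u * (if InI n u then 0 else 1) else 0) := by
        unfold lift
        rw [if_pos hx]
        simp only [g]
        have hmem : x.val ∈ Icc 1 N := Finset.mem_Icc.2 hx
        rw [if_pos hmem, ZMod.natCast_zmod_val]
      have h2 : Err n N w x = ∑ u, w x u * (if InI n u then 0 else 1) := by
        unfold Err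
        simp only [hx, true_iff]
      rw [h1, h2, add_sub_cancel_left]
      have h3 := hout x
      split_ifs
      · rw [abs_of_nonneg h3]
      · rw [abs_zero]; exact h3
    · have h1 : lift N (g i) x = 0 := by
        unfold lift
        rw [if_neg hx]
      have h2 : Err n N w x = ∑ u, w x u * (if InI n u then 1 else 0) := by
        unfold Err
        refine Finset.sum_congr rfl fun u _ => ?_
        by_cases hu : InI n u
        · simp [hx, hu]
        · simp [hx, hu]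
      rw [h1, h2, zero_sub, abs_neg, abs_of_nonneg (hF0 i x)]
      refine Finset.sum_le_sum fun u _ => mul_le_mul_of_nonneg_left ?_ (hw0 x u)
      simp only [fc, lift]
      split_ifs <;> norm_num
  have hnF : ∀ i x, ‖((F i x : ℝ) : ℂ)‖ ≤ 1 := by
    intro i x
    rw [Complex.norm_real, Real.norm_eq_abs, abs_of_nonneg (hF0 i x)]
    exact hF1 i x
  have hng : ∀ i (x : ZMod P), ‖((lift N (g i) x : ℝ) : ℂ)‖ ≤ 1 := by
    intro i x
    rw [Complex.norm_real, Real.norm_eq_abs]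
    unfold lift
    split_ifs
    · rw [abs_of_nonneg (hg0 _ _)]; exact hg_le _ _
    · simp
  -- total error
  have hErr : ∑ x, Err n N w x ≤ κ₁ * P := by
    have h1 := sum_Err n N ⌈δ * P⌉₊ w hw0 hw1 η δ hη hδ hwloc hratio (Nat.le_ceil _)
    have h2 : (⌈δ * P⌉₊ : ℝ) ≤ δ * P + 1 := (Nat.ceil_lt_add_one (by positivity)).le
    have h3 : η / (8 * δ ^ 2) = κ₁ / 4 := by
      simp only [η]
      field_simp
      ring
    rw [h3] at h1
    have h4 : 16 ≤ κ₁ * P := by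
      rw [div_le_iff₀ hκ₁] at hP16
      linarith
    have h5 : δ = κ₁ / 8 := rfl
    rw [h5] at h2 h1
    nlinarith
  have hT1 := TT_L1 ((a : ZMod P) * (c : ZMod P)⁻¹) ((b : ZMod P) * (c : ZMod P)⁻¹)
    (isUnit_ratio b c hPb hPc)
    (fun x => ((lift N (g i) x : ℝ) : ℂ)) (fun x => ((lift N (g j) x : ℝ) : ℂ))
    (fun x => ((lift N (g k) x : ℝ) : ℂ))
    (fun x => ((F i x : ℝ) : ℂ)) (fun x => ((F j x : ℝ) : ℂ)) (fun x => ((F k x : ℝ) : ℂ))
    (hng j) (hng k) (hnF i) (hnF j) (Err n N w) (hcmp i) (hcmp j) (hcmp k)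
  rw [TT_lift a b c N hNP hc hPc] at hT1
  have hT2 := hwT i j k
  have hT3 := TT_lift (q := p) a b c n hnlt hc hpc (fun x => if f x = i then (1 : ℝ) else 0)
    (fun x => if f x = j then (1 : ℝ) else 0) (fun x => if f x = k then (1 : ℝ) else 0)
  have hT2' : ‖TT ((a : ZMod P) * (c : ZMod P)⁻¹) ((b : ZMod P) * (c : ZMod P)⁻¹)
      (fun x => ((F i x : ℝ) : ℂ)) (fun x => ((F j x : ℝ) : ℂ)) (fun x => ((F k x : ℝ) : ℂ)) /
        (P : ℂ) ^ 2 - ((∑ t ∈ sols a b c n, (if f t.1 = i then (1 : ℝ) else 0) *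
            (if f t.2.1 = j then 1 else 0) * (if f t.2.2 = k then 1 else 0) : ℝ) : ℂ) /
            (p : ℂ) ^ 2‖ ≤ 3 * κ₁ := by
    rw [← hT3]
    exact hT2
  have hP2 : (0 : ℝ) < (P : ℝ) ^ 2 := by positivity
  have hT1' : ‖((∑ t ∈ sols a b c N, g i t.1 * g j t.2.1 * g k t.2.2 : ℝ) : ℂ) / (P : ℂ) ^ 2 -
      TT ((a : ZMod P) * (c : ZMod P)⁻¹) ((b : ZMod P) * (c : ZMod P)⁻¹)
      (fun x => ((F i x : ℝ) : ℂ)) (fun x => ((F j x : ℝ) : ℂ)) (fun x => ((F k x : ℝ) : ℂ)) /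
        (P : ℂ) ^ 2‖ ≤ 3 * κ₁ := by
    rw [← sub_div, norm_div, norm_pow, Complex.norm_natCast, div_le_iff₀ hP2]
    refine le_trans hT1 ?_
    nlinarith
  have hfin := norm_add_le
    (((∑ t ∈ sols a b c N, g i t.1 * g j t.2.1 * g k t.2.2 : ℝ) : ℂ) / (P : ℂ) ^ 2 -
      TT ((a : ZMod P) * (c : ZMod P)⁻¹) ((b : ZMod P) * (c : ZMod P)⁻¹)
      (fun x => ((F i x : ℝ) : ℂ)) (fun x => ((F j x : ℝ) : ℂ)) (fun x => ((F k x : ℝ) : ℂ)) /
        (P : ℂ) ^ 2)
    (TT ((a : ZMod P) * (c : ZMod P)⁻¹) ((b : ZMod P) * (c : ZMod P)⁻¹)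
      (fun x => ((F i x : ℝ) : ℂ)) (fun x => ((F j x : ℝ) : ℂ)) (fun x => ((F k x : ℝ) : ℂ)) /
        (P : ℂ) ^ 2 - ((∑ t ∈ sols a b c n, (if f t.1 = i then (1 : ℝ) else 0) *
            (if f t.2.1 = j then 1 else 0) * (if f t.2.2 = k then 1 else 0) : ℝ) : ℂ) /
            (p : ℂ) ^ 2)
  rw [sub_add_sub_cancel] at hfin
  have hcast : (((∑ t ∈ sols a b c N, g i t.1 * g j t.2.1 * g k t.2.2 : ℝ) : ℂ) / (P : ℂ) ^ 2 -
      ((∑ t ∈ sols a b c n, (if f t.1 = i then (1 : ℝ) else 0) *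
            (if f t.2.1 = j then 1 else 0) * (if f t.2.2 = k then 1 else 0) : ℝ) : ℂ) /
            (p : ℂ) ^ 2) =
      (((∑ t ∈ sols a b c N, g i t.1 * g j t.2.1 * g k t.2.2) / (P : ℝ) ^ 2 -
      (∑ t ∈ sols a b c n, (if f t.1 = i then (1 : ℝ) else 0) *
            (if f t.2.1 = j then 1 else 0) * (if f t.2.2 = k then 1 else 0)) /
            (p : ℝ) ^ 2 : ℝ) : ℂ) := by
    rw [Complex.ofReal_sub, Complex.ofReal_div, Complex.ofReal_div, Complex.ofReal_pow,
      Complex.ofReal_pow, Complex.ofReal_natCast, Complex.ofReal_natCast]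
  rw [hcast, Complex.norm_real, Real.norm_eq_abs] at hfin
  refine le_trans hfin ?_
  have : κ₁ = κ / 6 := rfl
  linarith

end Pool.Agent.MP_0bef22_co
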