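import Mathlib
import Pool.Agent.MP_0bef22_co.IntTransfer
import Pool.Agent.MP_0bef22_co.Count

open Finset

namespace Pool.Agent.MP_0bef22_co

section
variable {r : ℕ}

lemma cnt_eq_sum (a b c n : ℕ) (f : ℕ → Fin r) (Pat : Finset (Fin r × Fin r × Fin r)) :
    (cnt a b c n f Pat : ℝ) = ∑ k ∈ Pat, ∑ t ∈ sols a b c n, (if f t.1 = k.1 then (1 : ℝ) else 0) *
      (if f t.2.1 = k.2.1 then 1 else 0) * (if f t.2.2 = k.2.2 then 1 else 0) := by
  classical
  rw [Finset.sum_comm]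
  unfold cnt
  rw [Finset.card_filter]
  push_cast
  refine Finset.sum_congr rfl fun t _ => ?_
  have e : ∀ k : Fin r × Fin r × Fin r, (if f t.1 = k.1 then (1 : ℝ) else 0) *
      (if f t.2.1 = k.2.1 then 1 else 0) * (if f t.2.2 = k.2.2 then 1 else 0) =
      if k = (f t.1, f t.2.1, f t.2.2) then 1 else 0 := by
    intro k
    by_cases h : k = (f t.1, f t.2.1, f t.2.2)
    · subst h; simp
    · rw [if_neg h]
      by_cases h1 : f t.1 = k.1
      · by_cases h2 : f t.2.1 = k.2.1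
        · by_cases h3 : f t.2.2 = k.2.2
          · exact absurd (Prod.ext h1.symm (Prod.ext h2.symm h3.symm)) h
          · simp [h3]
        · simp [h2]
      · simp [h1]
  simp only [e]
  exact (Finset.sum_ite_eq' Pat (f t.1, f t.2.1, f t.2.2) (fun _ => (1 : ℝ))).symm

lemma cnt_univ (a b c n : ℕ) (f : ℕ → Fin r) :
    cnt a b c n f Finset.univ = (sols a b c n).card := by
  unfold cnt
  rw [Finset.filter_true_of_mem]
  intro t _
  exact Finset.mem_univ _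

lemma sum_weights_univ (a b c N : ℕ) (g : Fin r → ℕ → ℝ) (hg1 : ∀ x, ∑ i, g i x = 1) :
    ∑ k : Fin r × Fin r × Fin r, ∑ t ∈ sols a b c N, g k.1 t.1 * g k.2.1 t.2.1 * g k.2.2 t.2.2 =
      ((sols a b c N).card : ℝ) := by
  rw [Finset.sum_comm]
  have h : ∀ t ∈ sols a b c N, ∑ k : Fin r × Fin r × Fin r,
      g k.1 t.1 * g k.2.1 t.2.1 * g k.2.2 t.2.2 = 1 := by
    intro t _
    rw [Fintype.sum_prod_type]
    simp only [Fintype.sum_prod_type]
    simp only [← Finset.mul_sum, hg1, mul_one]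
  rw [Finset.sum_congr rfl h]
  simp

/-- the elementary lower bound for the density of solutions -/
lemma density_lower (a b c : ℕ) (ha : 0 < a) (hb : 0 < b) (hc : 0 < c) :
    ∃ c₀ : ℝ, 0 < c₀ ∧ ∀ n : ℕ, 2 * (a + b + c) ≤ n →
      c₀ * ((pp a b c n : ℕ) : ℝ) ^ 2 ≤ ((sols a b c n).card : ℝ) := by
  have hs : 0 < a + b + c := by omega
  refine ⟨1 / (4 * (a * b * c * (a + b + c) : ℝ) * (a + b + c)) ^ 2, by positivity, fun n hn => ?_⟩
  have h1 : ((n : ℝ) / (2 * (a + b + c))) ^ 2 ≤ ((sols a b c n).card : ℝ) := by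
    have h2 := sols_card_ge a b c n ha hb hc
    have h3 : (n : ℝ) / (2 * (a + b + c)) ≤ ((n / (a + b + c) : ℕ) : ℝ) := by
      rw [div_le_iff₀ (by positivity)]
      have h4 : n < (a + b + c) * (n / (a + b + c)) + (a + b + c) := by
        have h5 := Nat.div_add_mod n (a + b + c)
        have h6 := Nat.mod_lt n hs
        omega
      have h5 : 1 ≤ n / (a + b + c) := (Nat.one_le_div_iff hs).2 (by omega)
      have h6 : n ≤ (n / (a + b + c)) * (2 * (a + b + c)) := by nlinarith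
      exact_mod_cast h6
    calc ((n : ℝ) / (2 * (a + b + c))) ^ 2 ≤ ((n / (a + b + c) : ℕ) : ℝ) ^ 2 :=
          pow_le_pow_left₀ (by positivity) h3 2
      _ ≤ _ := by exact_mod_cast h2
  refine le_trans ?_ h1
  have hn1 : 1 ≤ n := by omega
  have h7 : ((pp a b c n : ℕ) : ℝ) ≤ 2 * ((a * b * c * (a + b + c) : ℝ)) * n := by
    unfold pp
    have h8 : 1 ≤ a * b * c * (a + b + c) * n := by
      have : 0 < a * b * c * (a + b + c) * n := by positivity
      exact this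
    have h9 : a * b * c * (a + b + c) * n + 1 ≤ 2 * (a * b * c * (a + b + c)) * n := by
      have : 2 * (a * b * c * (a + b + c)) * n = a * b * c * (a + b + c) * n +
        a * b * c * (a + b + c) * n := by ring
      omega
    exact_mod_cast h9
  have h10 : (0 : ℝ) ≤ ((pp a b c n : ℕ) : ℝ) := by positivity
  have h11 : ((pp a b c n : ℕ) : ℝ) / (4 * (a * b * c * (a + b + c) : ℝ) * (a + b + c)) ≤
      (n : ℝ) / (2 * (a + b + c)) := by
    rw [div_le_div_iff₀ (by positivity) (by positivity)]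
    have h12 : (0 : ℝ) < (a + b + c : ℝ) := by positivity
    nlinarith
  calc 1 / (4 * (a * b * c * (a + b + c) : ℝ) * (a + b + c)) ^ 2 * ((pp a b c n : ℕ) : ℝ) ^ 2 =
      (((pp a b c n : ℕ) : ℝ) / (4 * (a * b * c * (a + b + c) : ℝ) * (a + b + c))) ^ 2 := by
        rw [div_pow]; ring
    _ ≤ _ := pow_le_pow_left₀ (by positivity) h11 2

/-- the final computation -/
lemma final_arith (P N N' n Q r κ' c₀ τ C Rκ t' cF : ℝ) (hP : 0 < P) (hN' : 0 ≤ N')
    (hn : 0 ≤ n) (hQ : 0 ≤ Q) (hr : 0 ≤ r) (hκ' : 0 < κ') (hκ'1 : κ' ≤ 1) (hc₀ : 0 < c₀)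
    (hτ : c₀ ≤ τ) (hC0 : 0 ≤ C) (hCτ : C ≤ τ) (hRκ : Rκ = κ' * c₀ / 6)
    (hN'P : N' ≤ 2 * P) (hNP : N ≤ P)
    (hPbig : (6 * n * Q + 3 + 6 * r) * 2 ≤ κ' * c₀ * P)
    (h1 : t' ≤ P ^ 2 * (τ + Rκ) + 3 * (n * Q * N'))
    (h2 : P ^ 2 * (τ - Rκ) ≤ t')
    (h3 : P ^ 2 * (C - Rκ) - 3 * N - 3 * (r * N') ≤ cF) :
    (C / τ - κ') * t' ≤ cF := by
  have hτpos : 0 < τ := lt_of_lt_of_le hc₀ hτ
  have hq : C / τ ≤ 1 := by rw [div_le_one hτpos]; exact hCτ
  have hq0 : 0 ≤ C / τ := by positivity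
  have hqτ : C / τ * τ = C := by field_simp
  have hRκ0 : 0 ≤ Rκ := by rw [hRκ]; positivity
  -- upper bound for the left side
  have e1 : C / τ * t' ≤ C / τ * (P ^ 2 * (τ + Rκ) + 3 * (n * Q * N')) :=
    mul_le_mul_of_nonneg_left h1 hq0
  have e2 : C / τ * (P ^ 2 * (τ + Rκ) + 3 * (n * Q * N')) ≤
      P ^ 2 * (C + Rκ) + 3 * (n * Q * N') := by
    have h3 : C / τ * (P ^ 2 * (τ + Rκ) + 3 * (n * Q * N')) =
        P ^ 2 * (C / τ * τ) + C / τ * (P ^ 2 * Rκ + 3 * (n * Q * N')) := by ring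
    rw [h3, hqτ]
    have h4 : 0 ≤ P ^ 2 * Rκ + 3 * (n * Q * N') := by positivity
    have h5 : C / τ * (P ^ 2 * Rκ + 3 * (n * Q * N')) ≤ 1 * (P ^ 2 * Rκ + 3 * (n * Q * N')) :=
      mul_le_mul_of_nonneg_right hq h4
    linarith
  have e3 : κ' * (P ^ 2 * (τ - Rκ)) ≤ κ' * t' := mul_le_mul_of_nonneg_left h2 hκ'.le
  have e5 : 3 * (n * Q * N') ≤ 6 * n * Q * P := by
    have h3 : 0 ≤ n * Q := by positivity
    have h4 : n * Q * N' ≤ n * Q * (2 * P) := mul_le_mul_of_nonneg_left hN'P h3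
    linarith
  have e6 : 3 * (r * N') ≤ 6 * r * P := by
    have h4 : r * N' ≤ r * (2 * P) := mul_le_mul_of_nonneg_left hN'P hr
    linarith
  have e7 : (6 * n * Q + 3 + 6 * r) * 2 * P ≤ κ' * c₀ * P * P :=
    mul_le_mul_of_nonneg_right hPbig hP.le
  have e8 : κ' * P ^ 2 * c₀ ≤ κ' * P ^ 2 * τ := by
    have h3 : 0 ≤ κ' * P ^ 2 := by positivity
    exact mul_le_mul_of_nonneg_left hτ h3
  have e9 : κ' * (P ^ 2 * Rκ) ≤ 1 * (P ^ 2 * Rκ) := by
    have h3 : 0 ≤ P ^ 2 * Rκ := by positivity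
    exact mul_le_mul_of_nonneg_right hκ'1 h3
  have e10 : P ^ 2 * Rκ = κ' * c₀ * P ^ 2 / 6 := by
    rw [hRκ]; ring
  have e14 : (C / τ - κ') * t' = C / τ * t' - κ' * t' := by ring
  rw [e14]
  have e16 : κ' * c₀ * P * P = κ' * c₀ * P ^ 2 := by ring
  rw [e16] at e7
  have e17 : κ' * (P ^ 2 * (τ - Rκ)) = κ' * P ^ 2 * τ - κ' * (P ^ 2 * Rκ) := by ring
  have e18 : κ' * P ^ 2 * c₀ = κ' * c₀ * P ^ 2 := by ring
  have e19 : (6 * n * Q + 3 + 6 * r) * 2 * P = 2 * (6 * n * Q * P) + 6 * P + 2 * (6 * r * P) := by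
    ring
  have e20 : P ^ 2 * (C + Rκ) = P ^ 2 * C + P ^ 2 * Rκ := by ring
  have e21 : P ^ 2 * (C - Rκ) = P ^ 2 * C - P ^ 2 * Rκ := by ring
  rw [e17] at e3
  rw [e18] at e8
  rw [e19] at e7
  rw [e20] at e2
  rw [e21] at h3
  linarith

/-- the main inequality -/
theorem main_ineq (a b c : ℕ) (ha : 0 < a) (hb : 0 < b) (hc : 0 < c) [NeZero r]
    (Pat : Finset (Fin r × Fin r × Fin r)) (κ' : ℝ) (hκ' : 0 < κ') (hκ'1 : κ' ≤ 1) :
    ∃ n₀ : ℕ, ∀ n ≥ n₀, ∀ f : ℕ → Fin r, ∃ N₀ : ℕ, ∀ N' ≥ N₀, ∃ F : ℕ → Fin r,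
      (∀ i : Fin r, ∃ x ∈ Icc 1 N', F x = i) ∧
      (cnt a b c n f Pat : ℝ) / ((sols a b c n).card : ℝ) - κ' ≤
        (cnt a b c N' F Pat : ℝ) / ((sols a b c N').card : ℝ) := by
  classical
  obtain ⟨c₀, hc₀, hdens⟩ := density_lower a b c ha hb hc
  have hr : 0 < r := Nat.pos_of_ne_zero (NeZero.ne r)
  let R : ℝ := (r : ℝ) ^ 3
  have hR : 0 < R := by positivity
  let κ : ℝ := κ' * c₀ / (6 * R)
  have hκ : 0 < κ := by positivity
  obtain ⟨n₀, hn₀⟩ := interval_transfer a b c r ha hb hc κ hκ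
  refine ⟨n₀ + 2 * (a + b + c), fun n hn f => ?_⟩
  have hn1 : 0 < n := by omega
  obtain ⟨Q, hQ, l₀, hl₀⟩ := hn₀ n (by omega) f
  set p := pp a b c n with hp_def
  have hp1 : 1 ≤ p := pp_pos a b c n
  have hnp : n ≤ p := by
    have h1 := lt_pp a b c n ha hb hc
    have h2 : n ≤ (a + b + c) * n := Nat.le_mul_of_pos_left n (by omega)
    omega
  -- how large `l` must be
  let l₁ : ℕ := max (max l₀ 1) ⌈(6 * n * Q + 3 + 6 * r) * 2 / (κ' * c₀)⌉₊
  refine ⟨n * (1 + Q * l₁) + r, fun N' hN' => ?_⟩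
  -- the multiple of `n` just below `N'`
  let l : ℕ := (N' / n - 1) / Q
  have hl1 : l₁ ≤ l := by
    simp only [l]
    rw [Nat.le_div_iff_mul_le hQ]
    have h1 : 1 + Q * l₁ ≤ N' / n := by
      rw [Nat.le_div_iff_mul_le hn1, mul_comm]; omega
    rw [mul_comm]; omega
  have hNn : 1 ≤ N' / n := by
    have h1 : 1 + Q * l₁ ≤ N' / n := by
      rw [Nat.le_div_iff_mul_le hn1, mul_comm]; omega
    omega
  have hlower : n * (1 + Q * l) ≤ N' := by
    have h1 : Q * l ≤ N' / n - 1 := by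
      simp only [l]; exact Nat.mul_div_le _ _
    have h2 : 1 + Q * l ≤ N' / n := by omega
    calc n * (1 + Q * l) ≤ n * (N' / n) := Nat.mul_le_mul_left _ h2
      _ ≤ N' := Nat.mul_div_le _ _
  have hupper : N' ≤ n * (1 + Q * l) + n * Q := by
    have h1 : N' / n - 1 < Q * (l + 1) := by
      simp only [l]
      exact Nat.lt_mul_div_succ _ hQ
    have h2 : N' / n < 1 + Q * (l + 1) := by omega
    rw [Nat.div_lt_iff_lt_mul hn1] at h2
    have h3 : (1 + Q * (l + 1)) * n = n * (1 + Q * l) + n * Q := by ring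
    omega
  obtain ⟨g, hg0, hg1, hT⟩ := hl₀ l (le_trans (le_trans (le_max_left _ _) (le_max_left _ _)) hl1)
  set N := n * (1 + Q * l) with hN_def
  set P := p * (1 + Q * l) with hP_def
  have hl1' : 1 ≤ l := le_trans (le_trans (le_max_right _ _) (le_max_left _ _)) hl1
  have hQlN : n * Q ≤ N := by
    rw [hN_def]
    refine Nat.mul_le_mul_left _ ?_
    have : Q * 1 ≤ Q * l := Nat.mul_le_mul_left _ hl1'
    omega
  have hNP : N ≤ P := Nat.mul_le_mul_right _ hnp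
  have hlP : l ≤ P := by
    have h2 : l ≤ Q * l := Nat.le_mul_of_pos_left l hQ
    have h3 : 1 + Q * l ≤ p * (1 + Q * l) := Nat.le_mul_of_pos_left _ hp1
    omega
  have hPpos : 0 < P := by omega
  -- the colouring
  obtain ⟨F₀, hF₀⟩ := weights_to_coloring a b c N ha hb hc g hg0 hg1 Pat
  obtain ⟨F, hFon, hF⟩ := make_onto a b c N' ha hb hc (by omega) F₀ Pat
  refine ⟨F, hFon, ?_⟩
  -- real numbers
  have hPr : (0 : ℝ) < (P : ℝ) := by exact_mod_cast hPpos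
  have hpr : (0 : ℝ) < (p : ℝ) := by exact_mod_cast hp1
  let C : ℝ := (cnt a b c n f Pat : ℝ) / (p : ℝ) ^ 2
  let τ : ℝ := ((sols a b c n).card : ℝ) / (p : ℝ) ^ 2
  have hτ : c₀ ≤ τ := by
    simp only [τ]
    rw [le_div_iff₀ (by positivity)]
    exact hdens n (by omega)
  have hτpos : 0 < τ := lt_of_lt_of_le hc₀ hτ
  have hCτ : C ≤ τ := by
    simp only [C, τ]
    gcongr
    unfold cnt
    exact Finset.card_filter_le _ _
  have hC0 : 0 ≤ C := by positivity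
  have hsol_pos : (0 : ℝ) < ((sols a b c n).card : ℝ) := by
    have : ((sols a b c n).card : ℝ) = τ * (p : ℝ) ^ 2 :=
      (div_mul_cancel₀ _ (pow_ne_zero 2 hpr.ne')).symm
    rw [this]; exact mul_pos hτpos (pow_pos hpr 2)
  have hratio : (cnt a b c n f Pat : ℝ) / ((sols a b c n).card : ℝ) = C / τ :=
    (div_div_div_cancel_right₀ (pow_ne_zero 2 hpr.ne') _ _).symm
  -- weighted count on `[N]`
  have hcardk : ∀ B : Finset (Fin r × Fin r × Fin r), (B.card : ℝ) ≤ R := by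
    intro B
    have h1 : B.card ≤ r ^ 3 := by
      refine le_trans (Finset.card_le_univ B) (le_of_eq ?_)
      rw [Fintype.card_prod, Fintype.card_prod, Fintype.card_fin]
      ring
    simp only [R]
    exact_mod_cast h1
  have hsum : ∀ B : Finset (Fin r × Fin r × Fin r),
      |(∑ k ∈ B, ∑ t ∈ sols a b c N, g k.1 t.1 * g k.2.1 t.2.1 * g k.2.2 t.2.2) / (P : ℝ) ^ 2 -
        (cnt a b c n f B : ℝ) / (p : ℝ) ^ 2| ≤ R * κ := by
    intro B
    rw [cnt_eq_sum, Finset.sum_div, Finset.sum_div, ← Finset.sum_sub_distrib]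
    refine le_trans (Finset.abs_sum_le_sum_abs _ _) ?_
    refine le_trans (Finset.sum_le_card_nsmul _ _ κ fun k _ => hT k.1 k.2.1 k.2.2) ?_
    rw [nsmul_eq_mul]
    exact mul_le_mul_of_nonneg_right (hcardk B) hκ.le
  have h1 := hsum Pat
  have h2 := hsum Finset.univ
  rw [sum_weights_univ a b c N g hg1, cnt_univ] at h2
  rw [abs_le] at h1 h2
  have hWlow : (P : ℝ) ^ 2 * (C - R * κ) ≤
      ∑ k ∈ Pat, ∑ t ∈ sols a b c N, g k.1 t.1 * g k.2.1 t.2.1 * g k.2.2 t.2.2 := by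
    have h3 : C - R * κ ≤ (∑ k ∈ Pat, ∑ t ∈ sols a b c N, g k.1 t.1 * g k.2.1 t.2.1 *
        g k.2.2 t.2.2) / (P : ℝ) ^ 2 := by
      have := h1.1
      simp only [C]
      linarith
    rw [le_div_iff₀ (by positivity)] at h3
    linarith
  have hNup : ((sols a b c N).card : ℝ) ≤ (P : ℝ) ^ 2 * (τ + R * κ) := by
    have h3 : ((sols a b c N).card : ℝ) / (P : ℝ) ^ 2 ≤ τ + R * κ := by
      have := h2.2
      simp only [τ]
      linarith
    rw [div_le_iff₀ (by positivity)] at h3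
    linarith
  have hNlow : (P : ℝ) ^ 2 * (τ - R * κ) ≤ ((sols a b c N).card : ℝ) := by
    have h3 : τ - R * κ ≤ ((sols a b c N).card : ℝ) / (P : ℝ) ^ 2 := by
      have := h2.1
      simp only [τ]
      linarith
    rw [le_div_iff₀ (by positivity)] at h3
    linarith
  -- from `N` to `N'`
  have hcnt : (cnt a b c N F₀ Pat : ℝ) ≤ cnt a b c N' F₀ Pat := by
    have : cnt a b c N F₀ Pat ≤ cnt a b c N' F₀ Pat := by
      unfold cnt
      exact Finset.card_le_card (Finset.filter_subset_filter _ (sols_mono a b c hlower))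
    exact_mod_cast this
  have hsolsN' : ((sols a b c N').card : ℝ) ≤ ((sols a b c N).card : ℝ) + 3 * (n * Q * N') := by
    have h3 := card_coord a b c N' ha hb hc (Icc (N + 1) N')
    rw [Nat.card_Icc] at h3
    have h4 : sols a b c N' ⊆ sols a b c N ∪ ((sols a b c N').filter fun t =>
        t.1 ∈ Icc (N + 1) N' ∨ t.2.1 ∈ Icc (N + 1) N' ∨ t.2.2 ∈ Icc (N + 1) N') := by
      intro t ht
      rw [Finset.mem_union, Finset.mem_filter]
      by_cases h : t.1 ∈ Icc (N + 1) N' ∨ t.2.1 ∈ Icc (N + 1) N' ∨ t.2.2 ∈ Icc (N + 1) N'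
      · right; exact ⟨ht, h⟩
      · left
        have h5 := mem_sols.1 ht
        simp only [Finset.mem_Icc] at h h5
        rw [mem_sols]
        simp only [Finset.mem_Icc]
        refine ⟨⟨⟨h5.1.1.1, ?_⟩, ⟨h5.1.2.1.1, ?_⟩, ⟨h5.1.2.2.1, ?_⟩⟩, h5.2⟩
        · by_contra hcon; exact h (Or.inl ⟨by omega, h5.1.1.2⟩)
        · by_contra hcon; exact h (Or.inr (Or.inl ⟨by omega, h5.1.2.1.2⟩))
        · by_contra hcon; exact h (Or.inr (Or.inr ⟨by omega, h5.1.2.2.2⟩))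
    have h5 := le_trans (Finset.card_le_card h4) (Finset.card_union_le _ _)
    have h6 : (N' + 1 - (N + 1)) * N' ≤ n * Q * N' := Nat.mul_le_mul_right _ (by omega)
    have h7 : (sols a b c N').card ≤ (sols a b c N).card + 3 * (n * Q * N') := by omega
    exact_mod_cast h7
  have hsols_mono : ((sols a b c N).card : ℝ) ≤ ((sols a b c N').card : ℝ) := by
    exact_mod_cast Finset.card_le_card (sols_mono a b c hlower)
  have hF' : (cnt a b c N' F₀ Pat : ℝ) ≤ cnt a b c N' F Pat + 3 * (r * N') := by exact_mod_cast hF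
  -- sizes
  have hN'P : (N' : ℝ) ≤ 2 * P := by
    have : N' ≤ 2 * P := by omega
    exact_mod_cast this
  have hNPr : (N : ℝ) ≤ P := by exact_mod_cast hNP
  have hPbig : (6 * n * Q + 3 + 6 * r) * 2 ≤ κ' * c₀ * P := by
    have h3 : (6 * n * Q + 3 + 6 * r) * 2 / (κ' * c₀) ≤ (P : ℝ) := by
      refine le_trans (Nat.le_ceil _) ?_
      have h4 : ⌈((6 * n * Q + 3 + 6 * r) * 2 / (κ' * c₀) : ℝ)⌉₊ ≤ P :=
        le_trans (le_trans (le_max_right _ _) hl1) hlP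
      exact_mod_cast h4
    rw [div_le_iff₀ (by positivity)] at h3
    linarith
  have hRκ : R * κ = κ' * c₀ / 6 := by
    have h3 : R ≠ 0 := hR.ne'
    show R * (κ' * c₀ / (6 * R)) = κ' * c₀ / 6
    field_simp
  have ht' : (0 : ℝ) < ((sols a b c N').card : ℝ) := by
    have h3 : 0 < τ - R * κ := by
      rw [hRκ]
      nlinarith
    have h4 : 0 < (P : ℝ) ^ 2 * (τ - R * κ) := by positivity
    linarith
  rw [hratio, le_div_iff₀ ht']
  exact final_arith P N N' n Q r κ' c₀ τ C (R * κ) _ _ hPr (by positivity) (by positivity)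
    (by positivity) (by positivity) hκ' hκ'1 hc₀ hτ hC0 hCτ hRκ
    hN'P hNPr hPbig (le_trans hsolsN' (by linarith)) (le_trans hNlow hsols_mono)
    (by linarith)

/-- convergence criterion -/
lemma conv_of_ineq (u : ℕ → ℝ) (h0 : ∀ n, 0 ≤ u n) (h1 : ∀ n, u n ≤ 1)
    (h : ∀ κ : ℝ, 0 < κ → ∃ n₀ : ℕ, ∀ n ≥ n₀, ∃ N₀ : ℕ, ∀ N ≥ N₀, u n - κ ≤ u N) :
    ∃ L : ℝ, Filter.Tendsto u Filter.atTop (nhds L) := by
  have hbA : Filter.IsBoundedUnder (· ≤ ·) Filter.atTop u :=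
    ⟨1, Filter.eventually_map.2 (Filter.Eventually.of_forall h1)⟩
  have hbB : Filter.IsBoundedUnder (· ≥ ·) Filter.atTop u :=
    ⟨0, Filter.eventually_map.2 (Filter.Eventually.of_forall h0)⟩
  refine ⟨Filter.limsup u Filter.atTop, ?_⟩
  refine tendsto_of_le_liminf_of_limsup_le ?_ le_rfl hbA hbB
  refine le_of_forall_pos_le_add fun κ hκ => ?_
  obtain ⟨n₀, hn₀⟩ := h κ hκ
  refine Filter.limsup_le_of_le hbB.isCoboundedUnder_le ?_
  rw [Filter.eventually_atTop]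
  refine ⟨n₀, fun n hn => ?_⟩
  obtain ⟨N₀, hN₀⟩ := hn₀ n hn
  have h2 : u n - κ ≤ Filter.liminf u Filter.atTop := by
    refine Filter.le_liminf_of_le hbA.isCoboundedUnder_ge ?_
    rw [Filter.eventually_atTop]
    exact ⟨N₀, hN₀⟩
  linarith

/-- The limit of the largest proportion of solutions with colour pattern in `Pat` exists. -/
theorem pattern_limit (a b c : ℕ) (ha : 0 < a) (hb : 0 < b) (hc : 0 < c) [NeZero r]
    (Pat : Finset (Fin r × Fin r × Fin r)) :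
    ∃ L : ℝ, Filter.Tendsto (fun n => sSup {x : ℝ | ∃ f : ℕ → Fin r,
      (∀ i : Fin r, ∃ x ∈ Icc 1 n, f x = i) ∧
        (cnt a b c n f Pat : ℝ) / ((sols a b c n).card : ℝ) = x}) Filter.atTop (nhds L) := by
  have hle1 : ∀ n (f : ℕ → Fin r), (cnt a b c n f Pat : ℝ) / ((sols a b c n).card : ℝ) ≤ 1 := by
    intro n f
    refine div_le_one_of_le₀ ?_ (by positivity)
    unfold cnt
    exact_mod_cast Finset.card_filter_le _ _
  have hge0 : ∀ n (f : ℕ → Fin r), 0 ≤ (cnt a b c n f Pat : ℝ) / ((sols a b c n).card : ℝ) := by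
    intro n f; positivity
  have hbdd : ∀ n, BddAbove {x : ℝ | ∃ f : ℕ → Fin r,
      (∀ i : Fin r, ∃ x ∈ Icc 1 n, f x = i) ∧
        (cnt a b c n f Pat : ℝ) / ((sols a b c n).card : ℝ) = x} := by
    intro n
    refine ⟨1, ?_⟩
    rintro x ⟨f, _, rfl⟩
    exact hle1 n f
  refine conv_of_ineq _ (fun n => ?_) (fun n => ?_) (fun κ hκ => ?_)
  · refine Real.sSup_nonneg ?_
    rintro x ⟨f, _, rfl⟩
    exact hge0 n f
  · refine Real.sSup_le ?_ zero_le_one
    rintro x ⟨f, _, rfl⟩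
    exact hle1 n f
  · obtain ⟨n₀, hn₀⟩ := main_ineq a b c ha hb hc Pat (min (κ / 2) 1) (by positivity)
      (min_le_right _ _)
    refine ⟨n₀ + r, fun n hn => ?_⟩
    -- a nearly optimal colouring of `[n]`
    have hne : {x : ℝ | ∃ f : ℕ → Fin r, (∀ i : Fin r, ∃ x ∈ Icc 1 n, f x = i) ∧
        (cnt a b c n f Pat : ℝ) / ((sols a b c n).card : ℝ) = x}.Nonempty := by
      obtain ⟨f', hf', _⟩ := make_onto a b c n ha hb hc (by omega) (fun _ => (0 : Fin r)) Pat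
      exact ⟨_, f', hf', rfl⟩
    obtain ⟨x, ⟨f, hf, rfl⟩, hx⟩ := exists_lt_of_lt_csSup hne
      (show sSup {x : ℝ | ∃ f : ℕ → Fin r, (∀ i : Fin r, ∃ x ∈ Icc 1 n, f x = i) ∧
        (cnt a b c n f Pat : ℝ) / ((sols a b c n).card : ℝ) = x} - κ / 2 < _ by linarith)
    obtain ⟨N₀, hN₀⟩ := hn₀ n (by omega) f
    refine ⟨N₀, fun N hN => ?_⟩
    obtain ⟨F, hF, hFle⟩ := hN₀ N hN
    have h1 := le_csSup (hbdd N) ⟨F, hF, rfl⟩
    have h2 : min (κ / 2) 1 ≤ κ / 2 := min_le_left _ _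
    linarith

end

end Pool.Agent.MP_0bef22_co
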