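import Mathlib
import Pool.Agent.MP_0bef22_co.Defs
import Pool.Agent.MP_0bef22_co.Main

open Finset

namespace Pool.Agent.MP_0bef22_co

theorem rb_limit (a b c : ℕ) (ha : 0 < a) (hb : 0 < b) (hc : 0 < c) :
    ∃ L : ℝ, Filter.Tendsto (fun n => rb a b c n) Filter.atTop (nhds L) := by
  obtain ⟨L, hL⟩ := pattern_limit (r := 3) a b c ha hb hc
    (Finset.univ.filter fun k => k.1 ≠ k.2.1 ∧ k.2.1 ≠ k.2.2 ∧ k.1 ≠ k.2.2)
  refine ⟨L, ?_⟩
  have h : (fun n => rb a b c n) = fun n => sSup {x : ℝ | ∃ f : ℕ → Fin 3,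
      (∀ i : Fin 3, ∃ x ∈ Icc 1 n, f x = i) ∧
        (cnt a b c n f (Finset.univ.filter fun k => k.1 ≠ k.2.1 ∧ k.2.1 ≠ k.2.2 ∧ k.1 ≠ k.2.2) :
          ℝ) / ((sols a b c n).card : ℝ) = x} := by
    funext n
    unfold rb rbProp IsColoring cnt
    simp only [Finset.mem_filter, Finset.mem_univ, true_and]
  rw [h]
  exact hL

theorem mono_limit (a b c : ℕ) (ha : 0 < a) (hb : 0 < b) (hc : 0 < c) :
    ∃ L : ℝ, Filter.Tendsto (fun n => mono a b c n) Filter.atTop (nhds L) := by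
  classical
  let Pat : Finset (Fin 3 × Fin 3 × Fin 3) :=
    Finset.univ.filter fun k => ¬ (k.1 = k.2.1 ∧ k.2.1 = k.2.2)
  obtain ⟨L, hL⟩ := pattern_limit (r := 3) a b c ha hb hc Pat
  refine ⟨1 - L, ?_⟩
  refine Filter.Tendsto.congr' ?_ (hL.const_sub 1)
  rw [Filter.EventuallyEq, Filter.eventually_atTop]
  refine ⟨a + b + c + 3, fun n hn => ?_⟩
  -- there are solutions
  have hpos : 0 < (sols a b c n).card := by
    have h1 := sols_card_ge a b c n ha hb hc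
    have h2 : 1 ≤ n / (a + b + c) := (Nat.one_le_div_iff (by omega)).2 (by omega)
    have h3 : 1 ≤ (n / (a + b + c)) ^ 2 := Nat.one_le_pow _ _ h2
    omega
  have hposr : (0 : ℝ) < ((sols a b c n).card : ℝ) := by exact_mod_cast hpos
  have hmono : ∀ f : ℕ → Fin 3, monoProp a b c n f =
      1 - (cnt a b c n f Pat : ℝ) / ((sols a b c n).card : ℝ) := by
    intro f
    unfold monoProp cnt
    have h1 := Finset.card_filter_add_card_filter_not (s := sols a b c n)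
      (fun t => f t.1 = f t.2.1 ∧ f t.2.1 = f t.2.2)
    have h2 : ((sols a b c n).filter fun t => (f t.1, f t.2.1, f t.2.2) ∈ Pat) =
        (sols a b c n).filter fun t => ¬ (f t.1 = f t.2.1 ∧ f t.2.1 = f t.2.2) := by
      refine Finset.filter_congr fun t _ => ?_
      simp only [Pat, Finset.mem_filter, Finset.mem_univ, true_and]
    rw [h2]
    have h3 : (((sols a b c n).filter fun t => f t.1 = f t.2.1 ∧ f t.2.1 = f t.2.2).card : ℝ) +
        (((sols a b c n).filter fun t => ¬ (f t.1 = f t.2.1 ∧ f t.2.1 = f t.2.2)).card : ℝ) =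
        ((sols a b c n).card : ℝ) := by exact_mod_cast h1
    rw [eq_sub_iff_add_eq, ← add_div, h3, div_self hposr.ne']
  have hne : ∃ f : ℕ → Fin 3, ∀ i : Fin 3, ∃ x ∈ Icc 1 n, f x = i := by
    obtain ⟨f', hf', _⟩ := make_onto a b c n ha hb hc (by omega) (fun _ => (0 : Fin 3)) Pat
    exact ⟨f', hf'⟩
  have hle1 : ∀ (f : ℕ → Fin 3), (cnt a b c n f Pat : ℝ) / ((sols a b c n).card : ℝ) ≤ 1 := by
    intro f
    refine div_le_one_of_le₀ ?_ (by positivity)
    unfold cnt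
    exact_mod_cast Finset.card_filter_le _ _
  unfold mono IsColoring
  simp only [hmono]
  set A : Set ℝ := {x : ℝ | ∃ f : ℕ → Fin 3, (∀ i : Fin 3, ∃ x ∈ Icc 1 n, f x = i) ∧
    (cnt a b c n f Pat : ℝ) / ((sols a b c n).card : ℝ) = x} with hA
  have hAne : A.Nonempty := by
    obtain ⟨f, hf⟩ := hne
    exact ⟨_, f, hf, rfl⟩
  have hAbdd : BddAbove A := ⟨1, by rintro x ⟨f, _, rfl⟩; exact hle1 f⟩
  have hlub := isLUB_csSup hAne hAbdd
  symm
  refine IsGLB.csInf_eq ⟨?_, ?_⟩ ?_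
  · rintro y ⟨f, hf, rfl⟩
    have := hlub.1 ⟨f, hf, rfl⟩
    linarith
  · intro y hy
    have : sSup A ≤ 1 - y := by
      refine hlub.2 ?_
      rintro x ⟨f, hf, rfl⟩
      have := hy ⟨f, hf, rfl⟩
      linarith
    linarith
  · obtain ⟨f, hf⟩ := hne
    exact ⟨_, f, hf, rfl⟩

end Pool.Agent.MP_0bef22_co
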